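import Pool.Agent.Lib.MP_6d85b4_al.Icc.Small

set_option autoImplicit false
set_option linter.unusedSectionVars false

/-! The statement for all labels and its consequences: infinite conjugacy classes, centralisers of
finite index subgroups of the Artin group, of the pure Artin group and of kernels onto Shephard
groups. -/

namespace Pool.Agent.Lib.MP_6d85b4_al.Icc

variable {S : Type} [Fintype S] [DecidableEq S] {M : CoxeterMatrix S}

theorem eq_one_of_powers (hc : (SimpleGraph.fromRel (fun i j : S => M i j ≠ 2)).Connected)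
    (hi : Infinite M.Group) {z : Art M}
    (hz : ∀ (g : Art M) (s : S), ∃ k : ℕ, 0 < k ∧ Commute z ((g * gen M s * g⁻¹) ^ k)) : z = 1 :=
  Subgroup.mem_bot.1 (zs_bot hc hi ▸ (show z ∈ Zs M from hz))

/-- Every non-trivial conjugacy class is infinite. -/
theorem icc (hc : (SimpleGraph.fromRel (fun i j : S => M i j ≠ 2)).Connected)
    (hi : Infinite M.Group) {z : Art M} (hz : z ≠ 1) :
    (Set.range fun g : Art M => g * z * g⁻¹).Infinite := by
  intro hf
  refine hz (eq_one_of_powers hc hi fun g s => ?_)
  generalize g * gen M s * g⁻¹ = r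
  obtain ⟨a, b, hab, e⟩ := Set.Finite.exists_lt_map_eq_of_forall_mem
    (f := fun k : ℕ => r ^ k * z * (r ^ k)⁻¹) (fun k => Set.mem_range_self (f := fun g : Art M => g * z * g⁻¹) (r ^ k))
    hf
  obtain ⟨k, rfl⟩ := Nat.exists_eq_add_of_lt hab
  refine ⟨k + 1, by omega, ?_⟩
  rw [add_assoc, pow_add] at e
  generalize r ^ (k + 1) = x at e ⊢
  generalize r ^ a = y at e
  have : z = x * z * x⁻¹ := by
    calc z = y⁻¹ * (y * z * y⁻¹) * y := by group
      _ = y⁻¹ * (y * x * z * (y * x)⁻¹) * y := by rw [e]
      _ = x * z * x⁻¹ := by group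
  change z * x = x * z
  conv_lhs => rw [this]
  group

/-- A subgroup meeting the normal closure of the `N`-th powers of the generators in a subgroup of
finite index has trivial centraliser. -/
theorem centraliser (hc : (SimpleGraph.fromRel (fun i j : S => M i j ≠ 2)).Connected)
    (hi : Infinite M.Group) {N : ℕ} (hN : 0 < N) (B : Subgroup (Art M))
    (hB : B.relIndex (Subgroup.normalClosure (Set.range fun s => gen M s ^ N)) ≠ 0) {z : Art M}
    (hz : ∀ b ∈ B, Commute z b) : z = 1 := by
  refine eq_one_of_powers hc hi fun g s => ?_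
  have h1 : (g * gen M s * g⁻¹) ^ N ∈
      Subgroup.normalClosure (Set.range fun s => gen M s ^ N) := by
    rw [conj_pow]
    exact Subgroup.normalClosure_normal.conj_mem _
      (Subgroup.subset_normalClosure (Set.mem_range_self (f := fun s => gen M s ^ N) s)) g
  obtain ⟨n, hn, -, h2⟩ := Subgroup.exists_pow_mem_of_relIndex_ne_zero hB h1
  exact ⟨N * n, Nat.mul_pos hN hn, by rw [pow_mul]; exact hz _ h2.1⟩

end Pool.Agent.Lib.MP_6d85b4_al.Icc
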