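import Mathlib
import Pool.Agent.Lib.MP_6d85b4_al.Blk

set_option autoImplicit false
set_option linter.unusedSectionVars false

/-! A pure word of a dihedral Artin group of label at least six which is not a product of two
pieces. -/

namespace Pool.Agent.Lib.MP_6d85b4_al.Icc

open FreeGroup (of lift lift_apply_of)

/-- The integral Heisenberg group. -/
@[ext] structure Hs where
  a : ℤ
  b : ℤ
  c : ℤ

instance : Mul Hs := ⟨fun g h => ⟨g.a + h.a, g.b + h.b, g.c + h.c + g.a * h.b⟩⟩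
instance : One Hs := ⟨⟨0, 0, 0⟩⟩
instance : Inv Hs := ⟨fun g => ⟨-g.a, -g.b, -g.c + g.a * g.b⟩⟩

@[simp] theorem mul_a (g h : Hs) : (g * h).a = g.a + h.a := rfl
@[simp] theorem mul_b (g h : Hs) : (g * h).b = g.b + h.b := rfl
@[simp] theorem mul_c (g h : Hs) : (g * h).c = g.c + h.c + g.a * h.b := rfl
@[simp] theorem one_a : (1 : Hs).a = 0 := rfl
@[simp] theorem one_b : (1 : Hs).b = 0 := rfl
@[simp] theorem one_c : (1 : Hs).c = 0 := rfl
@[simp] theorem inv_a (g : Hs) : g⁻¹.a = -g.a := rfl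
@[simp] theorem inv_b (g : Hs) : g⁻¹.b = -g.b := rfl
@[simp] theorem inv_c (g : Hs) : g⁻¹.c = -g.c + g.a * g.b := rfl

instance : Group Hs := Group.ofLeftAxioms
  (fun g h k => by ext <;> simp <;> ring) (fun g => by ext <;> simp)
  (fun g => by ext <;> simp)

theorem pow_a (g : Hs) (k : ℕ) : (g ^ k).a = k * g.a := by
  induction k with
  | zero => simp
  | succ k ih => rw [pow_succ, mul_a, ih]; push_cast; ring

theorem pow_b (g : Hs) (k : ℕ) : (g ^ k).b = k * g.b := by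
  induction k with
  | zero => simp
  | succ k ih => rw [pow_succ, mul_b, ih]; push_cast; ring

theorem comm_a (g h : Hs) : (g * h * g⁻¹ * h⁻¹).a = 0 := by simp
theorem comm_b (g h : Hs) : (g * h * g⁻¹ * h⁻¹).b = 0 := by simp
theorem comm_c (g h : Hs) : (g * h * g⁻¹ * h⁻¹).c = g.a * h.b - g.b * h.a := by
  simp; ring

/-- first axis -/
def HX : Subgroup Hs where
  carrier := {g | g.b = 0 ∧ g.c = 0}
  one_mem' := ⟨rfl, rfl⟩
  mul_mem' := fun {g h} hg hh => ⟨by simp [hg.1, hh.1], by simp [hg.2, hh.2, hh.1]⟩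
  inv_mem' := fun {g} hg => ⟨by simp [hg.1], by simp [hg.1, hg.2]⟩

/-- second axis -/
def HY : Subgroup Hs where
  carrier := {g | g.a = 0 ∧ g.c = 0}
  one_mem' := ⟨rfl, rfl⟩
  mul_mem' := fun {g h} hg hh => ⟨by simp [hg.1, hh.1], by simp [hg.2, hh.2, hg.1]⟩
  inv_mem' := fun {g} hg => ⟨by simp [hg.1], by simp [hg.1, hg.2]⟩

theorem two_axes {g h : Hs} (hg : g ∈ HX ∨ g ∈ HY) (hh : h ∈ HX ∨ h ∈ HY)
    (h1 : (g * h).a = 0) : (g * h).c = 0 := by
  rw [mul_a] at h1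
  rw [mul_c]
  rcases hg with ⟨-, g2⟩ | ⟨g1, g2⟩ <;> rcases hh with ⟨k1, k2⟩ | ⟨k1, k2⟩
  · simp [g2, k1, k2]
  · have : g.a = 0 := by omega
    simp [g2, k2, this]
  · simp [g1, g2, k2]
  · simp [g1, g2, k2]

theorem exists_hs {m : ℕ} (hm : 6 ≤ m) (j : ℤ) : ∃ v : ℤ → Hs, Valid m v ∧ v j = ⟨1, 0, 0⟩ ∧
    v (j + 1) = 1 ∧ v (j + 2) = 1 ∧ v (j + 3) = 1 ∧ v (j + 4) = ⟨0, 1, 0⟩ ∧
    (v (j + 5)).a = -1 := by
  obtain ⟨m, rfl⟩ : ∃ k, m = k + 1 := ⟨m - 1, by omega⟩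
  obtain ⟨v, hv, v1, v2⟩ := exists_valid m j fun a =>
    (if a = 0 then ⟨1, 0, 0⟩ else if a = 4 then ⟨0, 1, 0⟩ else if a = 5 then ⟨-1, 0, 0⟩ else 1 : Hs)
  refine ⟨v, hv, by simpa using v1 0 (by omega), by simpa using v1 1 (by omega),
    by simpa using v1 2 (by omega), by simpa using v1 3 (by omega),
    by simpa using v1 4 (by omega), ?_⟩
  by_cases h : m = 5
  · subst h
    have : v (j + 5) = _ := v2
    rw [this]
    simp [List.range_succ]
  · have : v (j + 5) = _ := v1 5 (by omega)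
    rw [this]
    simp

theorem axis_of {v : ℤ → Hs} {j : ℤ} (h0 : v j = ⟨1, 0, 0⟩) (h1 : v (j + 1) = 1)
    (h2 : v (j + 2) = 1) (h3 : v (j + 3) = 1) (h4 : v (j + 4) = ⟨0, 1, 0⟩) {a b lo hi : ℤ}
    {g : FreeGroup ℤ} (hg : g ∈ FI a b) (e1 : hi ≤ lo + 1) (e2 : lo - 1 ≤ a) (e3 : b ≤ hi)
    (e4 : j ≤ lo - 1) (e5 : hi ≤ j + 4) : lift v g ∈ HX ∨ lift v g ∈ HY := by
  by_cases h : hi ≤ j + 3
  · refine Or.inl (lift_mem (fun c c1 c2 => ?_) hg)
    have : c = j ∨ c = j + 1 ∨ c = j + 2 ∨ c = j + 3 := by omega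
    rcases this with rfl | rfl | rfl | rfl
    · rw [h0]; exact ⟨rfl, rfl⟩
    · rw [h1]; exact one_mem _
    · rw [h2]; exact one_mem _
    · rw [h3]; exact one_mem _
  · refine Or.inr (lift_mem (fun c c1 c2 => ?_) hg)
    have : c = j + 2 ∨ c = j + 3 ∨ c = j + 4 := by omega
    rcases this with rfl | rfl | rfl
    · rw [h2]; exact one_mem _
    · rw [h3]; exact one_mem _
    · rw [h4]; exact ⟨rfl, rfl⟩

/-- closed words and their cocycle -/
def Cl (w : FreeGroup Bool) (γ : FreeGroup ℤ) : Prop := pos w 0 = 0 ∧ coc w 0 = γ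

theorem Cl.mul {w w' : FreeGroup Bool} {γ γ' : FreeGroup ℤ} (h : Cl w γ) (h' : Cl w' γ') :
    Cl (w * w') (γ * γ') :=
  ⟨by rw [pos_mul, h'.1, h.1], by rw [coc_mul, h'.1, h.2, h'.2]⟩

theorem Cl.inv {w : FreeGroup Bool} {γ : FreeGroup ℤ} (h : Cl w γ) : Cl w⁻¹ γ⁻¹ := by
  have h1 := pos_mul w⁻¹ w 0
  have h2 := coc_mul w⁻¹ w 0
  rw [inv_mul_cancel, h.1] at h1 h2
  rw [pos_one] at h1
  rw [coc_one, h.2] at h2
  exact ⟨h1.symm, eq_inv_of_mul_eq_one_left h2.symm⟩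

theorem Cl.pow {w : FreeGroup Bool} {γ : FreeGroup ℤ} (h : Cl w γ) (k : ℕ) :
    Cl (w ^ k) (γ ^ k) := by
  induction k with
  | zero => exact ⟨by simp [pos_one], by simp [coc_one]⟩
  | succ k ih => rw [pow_succ, pow_succ]; exact ih.mul h

/-- three conjugates of generators -/
def c1 : FreeGroup Bool := (of true)⁻¹ * of false * (of true)⁻¹⁻¹
/-- three conjugates of generators -/
def c2 : FreeGroup Bool := (of false * of true)⁻¹ * of true * (of false * of true)⁻¹⁻¹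
/-- three conjugates of generators -/
def c3 : FreeGroup Bool := of false * of true * (of false)⁻¹

theorem cl_c1 : Cl (c1 ^ 2) (of 1) := by
  have : c1 ^ 2 = (of true)⁻¹ * (of false * (of false * of true)) := by
    simp [c1, pow_two, mul_assoc]
  rw [this]
  constructor
  · simp [pos_mul, pos_of, pos_of_inv, ty]
  · simp [coc_mul, pos_mul, pos_of, coc_of, coc_of_inv, ty]

theorem cl_c2 : Cl (c2 ^ 2) (of 2) := by
  have : c2 ^ 2 = (of true)⁻¹ * ((of false)⁻¹ * (of true * (of true * (of false * of true)))) := by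
    simp [c2, pow_two, mul_assoc]
  rw [this]
  constructor
  · simp [pos_mul, pos_of, pos_of_inv, ty]
  · simp [coc_mul, pos_mul, pos_of, pos_of_inv, coc_of, coc_of_inv, ty]

theorem cl_c3 : Cl (c3 ^ 2) (of (-2)) := by
  have : c3 ^ 2 = of false * (of true * (of true * (of false)⁻¹)) := by
    simp [c3, pow_two, mul_assoc]
  rw [this]
  constructor
  · simp [pos_mul, pos_of, pos_of_inv, ty]
  · simp [coc_mul, pos_mul, pos_of, pos_of_inv, coc_of, coc_of_inv, ty]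

/-- the test word -/
def tw (p q r : ℕ) : FreeGroup Bool :=
  ((c1 ^ 2) ^ p * (c3 ^ 2) ^ q) * (c2 ^ 2) ^ r * ((c1 ^ 2) ^ p * (c3 ^ 2) ^ q)⁻¹ *
    ((c2 ^ 2) ^ r)⁻¹

theorem cl_tw (p q r : ℕ) : Cl (tw p q r)
    ((of 1 ^ p * of (-2) ^ q) * of 2 ^ r * (of 1 ^ p * of (-2) ^ q)⁻¹ * (of 2 ^ r)⁻¹) :=
  ((((cl_c1.pow p).mul (cl_c3.pow q)).mul (cl_c2.pow r)).mul
    ((cl_c1.pow p).mul (cl_c3.pow q)).inv).mul (cl_c2.pow r).inv

theorem far_tw {m : ℕ} (hm : 6 ≤ m) {E1 E2 : Bool → ℤ → Prop}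
    (z1 : ¬ (Od E1 true ∧ Od E1 false)) (z2 : ¬ (Od E2 true ∧ Od E2 false))
    {p1 p2 : FreeGroup Bool} (w1 : p1 ∈ PW E1) (w2 : p2 ∈ PW E2) {d0 d1 d2 : Bool} {k0 k1 k2 : ℤ}
    {ρ : FreeGroup Bool} (hr : ρ ∈ Subgroup.normalClosure {brel m}) {p q r : ℕ} (hp : 0 < p)
    (hq : 0 < q) (hr0 : 0 < r) :
    ρ * tw p q r ≠ (of d2 ^ k2 * p2) * (of d1 ^ k1 * p1) * of d0 ^ k0 := by
  intro e
  have e1 := congrArg (fun w => pos w 0) e
  have e2 := congrArg (fun w => coc w 0) e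
  obtain ⟨t1, t2⟩ := cl_tw p q r
  obtain ⟨k, hk⟩ := pos_rel hr 0
  simp only [pos_mul (_ * _) (of d0 ^ k0), pos_mul (of d2 ^ k2 * p2), pos_mul ρ] at e1
  simp only [coc_mul (_ * _) (of d0 ^ k0), coc_mul (of d2 ^ k2 * p2), coc_mul ρ] at e2
  rw [t1, hk] at e1
  rw [t1, t2] at e2
  obtain ⟨l1, u1, a1, b1, ⟨x1, x2, x3, x4, x5, x6, x7, -⟩, g1, -⟩ :=
    blk z1 w1 d1 k1 (pos (of d0 ^ k0) 0)
  obtain ⟨l2, u2, a2, b2, ⟨y1, y2, y3, y4, y5, y6, y7, -⟩, g2, -⟩ := blk z2 w2 d2 k2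
    (pos (of d1 ^ k1 * p1) (pos (of d0 ^ k0) 0))
  rw [← e1] at y4 y5
  obtain ⟨j, g0⟩ := pow_act' d0 k0 0
  have j2 := wl_mem d0 0
  have hm' : (6 : ℤ) ≤ m := by exact_mod_cast hm
  have n1 : -1 ≤ pos (of d0 ^ k0) 0 ∧ pos (of d0 ^ k0) 0 ≤ 1 := by
    split_ifs at j <;> omega
  have hk0 : k = 0 := by
    by_contra h0
    rcases lt_or_gt_of_ne h0 with h | h
    · have : (m : ℤ) * k ≤ -6 := by nlinarith
      omega
    · have : 6 ≤ (m : ℤ) * k := by nlinarith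
      omega
  rw [hk0, mul_zero, mul_zero, add_zero] at hk y4 y5
  have kk := (ker_coc hr hk).2
  have key : ∀ j : ℤ, (j = -3 ∨ j = -2) → j ≤ l1 - 1 → j ≤ l2 - 1 → u1 ≤ j + 4 → u2 ≤ j + 4 →
      False := by
    intro j hj i1 i2 i3 i4
    obtain ⟨v, hv, v0, v1, v2, v3, v4, v5⟩ := exists_hs hm j
    have e3 := congrArg (lift v) e2
    have z0 : lift v (coc (of d0 ^ k0) 0) = 1 := by
      have := lift_mem (v := v) (H := ⊥) (fun c c1 c2 => ?_) g0
      · simpa using this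
      have : c = j + 1 ∨ c = j + 2 ∨ c = j + 3 := by omega
      rcases this with rfl | rfl | rfl <;> simpa
    rw [map_mul, kk Hs v hv, one_mul, map_mul _ _ (coc (of d0 ^ k0) 0), z0, mul_one,
      map_mul _ (coc _ _)] at e3
    have A1 := axis_of v0 v1 v2 v3 v4 g1 x3 x6 x7 i1 i3
    have A2 := axis_of v0 v1 v2 v3 v4 g2 y3 y6 y7 i2 i4
    have A3 := two_axes A2 A1
    rw [← e3, map_mul, map_mul, map_mul, map_inv, map_inv, comm_a, comm_c] at A3
    have A4 := A3 rfl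
    simp only [map_mul, map_pow, lift_apply_of, mul_a, mul_b, pow_a, pow_b] at A4
    have hp' : (0 : ℤ) < p := by exact_mod_cast hp
    have hq' : (0 : ℤ) < q := by exact_mod_cast hq
    have hr' : (0 : ℤ) < r := by exact_mod_cast hr0
    rcases hj with rfl | rfl
    · have f1 : v (-2) = 1 := v1
      have f4 : v 1 = ⟨0, 1, 0⟩ := v4
      have f5 : (v 2).a = -1 := v5
      rw [f1, f4, f5] at A4
      simp at A4
      omega
    · have f3 : v 1 = 1 := v3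
      have f4 : v 2 = ⟨0, 1, 0⟩ := v4
      rw [v0, f3, f4] at A4
      simp at A4
      omega
  by_cases h : u1 ≤ 1 ∧ u2 ≤ 1
  · exact key (-3) (Or.inl rfl) (by omega) (by omega) (by omega) (by omega)
  · exact key (-2) (Or.inr rfl) (by omega) (by omega) (by omega) (by omega)

end Pool.Agent.Lib.MP_6d85b4_al.Icc
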