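import Mathlib
import Pool.Agent.Lib.MP_6d85b4_al.Main
import Pool.Agent.Lib.MP_6d85b4_al.Icc.Far

set_option autoImplicit false
set_option linter.unusedSectionVars false

/-! Elements commuting with a power of every conjugate of a generator: large labels. -/

namespace Pool.Agent.Lib.MP_6d85b4_al.Icc

open Monoid Monoid.PushoutI CoxeterSystem

variable {B : Type} [Fintype B] [DecidableEq B] {M : CoxeterMatrix B}

variable (M) in
/-- the elements commuting with a positive power of every conjugate of a generator -/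
def Zs : Subgroup (Art M) where
  carrier := {z | ∀ (g : Art M) (s : B), ∃ k : ℕ, 0 < k ∧ Commute z ((g * gen M s * g⁻¹) ^ k)}
  one_mem' := fun _ _ => ⟨1, one_pos, Commute.one_left _⟩
  mul_mem' := fun {a b} ha hb g s => by
    obtain ⟨k, hk, h⟩ := ha g s
    obtain ⟨l, hl, h'⟩ := hb g s
    refine ⟨k * l, Nat.mul_pos hk hl, Commute.mul_left ?_ ?_⟩
    · rw [pow_mul]; exact h.pow_right l
    · rw [mul_comm, pow_mul]; exact h'.pow_right k
  inv_mem' := fun {a} ha g s => by
    obtain ⟨k, hk, h⟩ := ha g s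
    exact ⟨k, hk, h.inv_left⟩

theorem zs_normal : (Zs M).Normal := ⟨fun z hz a g s => by
  obtain ⟨k, hk, h⟩ := hz (a⁻¹ * g) s
  refine ⟨k, hk, ?_⟩
  have := h.map (MulAut.conj a)
  rw [map_pow] at this
  simpa [mul_assoc] using this⟩

theorem gen_pow_not_mem {T : Set B} {s : B} (hs : s ∉ T) {k : ℕ} (hk : 0 < k) :
    gen M s ^ k ∉ par M T := by
  intro h
  have := (flat hs (one_mem _) (i := k) (j := 0) (by simpa using h)).2.1
  omega

theorem zs_le {i j : B} (h0 : M i j = 0) : Zs M ≤ par M {u | u ≠ i ∧ u ≠ j} := by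
  have hij : i ≠ j := by
    rintro rfl
    simp at h0
  let ex : Bool → B := fun b => if b then i else j
  let G : Bool → Subgroup (Art M) := fun b => par M {u | u ≠ ex b}
  let H : Subgroup (Art M) := par M {u | u ≠ i ∧ u ≠ j}
  have hle : ∀ b, H ≤ G b := fun b => Subgroup.closure_mono (Set.image_mono fun u hu => by
    cases b
    · exact hu.2
    · exact hu.1)
  let φ : ∀ b, H →* G b := fun b => Subgroup.inclusion (hle b)
  have hφ : ∀ b, Function.Injective (φ b) := fun b => Subgroup.inclusion_injective _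
  let f : B → PushoutI (G := fun b => G b) φ := fun u =>
    if h : u = i then PushoutI.of (G := fun b => G b) false
      ⟨gen M u, gen_mem (T := {u | u ≠ ex false}) (fun e => hij (h.symm.trans e))⟩
    else PushoutI.of (G := fun b => G b) true ⟨gen M u, gen_mem (T := {u | u ≠ ex true}) h⟩
  have hf : ∀ (b : Bool) (u : B) (hu : u ≠ ex b), f u =
      PushoutI.of (G := fun b => G b) b ⟨gen M u, gen_mem (T := {u | u ≠ ex b}) hu⟩ := by
    intro b u hu
    by_cases h : u = i
    · cases b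
      · simp only [f, dif_pos h]
      · exact absurd h hu
    · cases b
      · simp only [f, dif_neg h]
        have hm : gen M u ∈ H := gen_mem (T := {u | u ≠ i ∧ u ≠ j}) ⟨h, hu⟩
        exact (of_apply_eq_base (G := fun b => G b) φ true ⟨_, hm⟩).trans
          (of_apply_eq_base (G := fun b => G b) φ false ⟨_, hm⟩).symm
      · simp only [f, dif_neg h]
  have hl : ∀ (b : Bool) (l : List B), (∀ x ∈ l, x ≠ ex b) → ∃ hm : (l.map (gen M)).prod ∈ G b,
      (l.map f).prod = PushoutI.of (G := fun b => G b) b ⟨_, hm⟩ := by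
    intro b l hx
    induction l with
    | nil => exact ⟨one_mem _, (map_one _).symm⟩
    | cons u l ih =>
      obtain ⟨hm, e⟩ := ih fun x h => hx x (List.mem_cons_of_mem _ h)
      have hu := hx u List.mem_cons_self
      refine ⟨mul_mem (gen_mem (T := {u | u ≠ ex b}) hu) hm, ?_⟩
      rw [List.map_cons, List.prod_cons, e, hf b u hu, ← map_mul]
      rfl
  let F : Art M →* PushoutI (G := fun b => G b) φ :=
    PresentedGroup.toGroup (lift_ok M f fun u v h => by
      obtain ⟨b, hu, hv⟩ : ∃ b, u ≠ ex b ∧ v ≠ ex b := by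
        by_cases h1 : u ≠ i ∧ v ≠ i
        · exact ⟨true, h1⟩
        · refine ⟨false, ?_, ?_⟩
          · rintro (rfl : u = j)
            have : v = i := by tauto
            rw [this, M.symmetric] at h
            exact h h0
          · rintro (rfl : v = j)
            have : u = i := by tauto
            rw [this] at h
            exact h h0
      obtain ⟨m1, e1⟩ := hl b (alternatingWord u v (M u v)) fun x hx => by
        rcases mem_alt hx with rfl | rfl <;> assumption
      obtain ⟨m2, e2⟩ := hl b (alternatingWord v u (M u v)) fun x hx => by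
        rcases mem_alt hx with rfl | rfl <;> assumption
      rw [e1, e2]
      congr 1
      exact Subtype.ext (braid M h))
  have hF : ∀ u, F (gen M u) = f u := fun u => PresentedGroup.toGroup.of _
  let r : PushoutI (G := fun b => G b) φ →* Art M :=
    PushoutI.lift (fun b => (G b).subtype) H.subtype fun b => rfl
  have hr : r.comp F = MonoidHom.id _ := by
    refine PresentedGroup.ext fun u => ?_
    change r (F (gen M u)) = gen M u
    rw [hF]
    by_cases h : u = i
    · simp only [f, dif_pos h, r, lift_of]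
      rfl
    · simp only [f, dif_neg h, r, lift_of]
      rfl
  intro z hz
  have hne : ∀ b, ex (!b) ≠ ex b := by
    intro b
    cases b
    · exact hij
    · exact hij.symm
  choose k hk hc using fun b => hz 1 (ex (!b))
  obtain ⟨h, hh⟩ := mem_base_of_comm (G := fun b => G b) hφ
    (fun b => ⟨gen M (ex (!b)), gen_mem (T := {u | u ≠ ex b}) (hne b)⟩ ^ k b) (fun b => by
      rintro ⟨h, hh⟩
      have e : (h : Art M) = gen M (ex (!b)) ^ k b := congrArg Subtype.val hh
      refine gen_pow_not_mem (T := {u | u ≠ i ∧ u ≠ j}) ?_ (hk b) (e ▸ h.2)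
      cases b
      · exact fun hh => hh.1 rfl
      · exact fun hh => hh.2 rfl) (F z) fun b => by
      have e := (hc b).eq
      rw [one_mul, inv_one, mul_one] at e
      rw [map_pow, ← hf b _ (hne b), ← hF, ← map_pow, ← map_mul, ← map_mul, e]
  have e : z = r (F z) := (DFunLike.congr_fun hr z).symm
  rw [e, ← hh]
  simp only [r, lift_base]
  exact h.2

variable {s : Bool ↪ B}

theorem zs_word {z : Art M} (hz : z ∈ Zs M) (u c : FreeGroup Bool) (b : Bool) :
    ∃ k : ℕ, 0 < k ∧ Commute z (pj M s (ph M s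
      (u * ((c * FreeGroup.of b * c⁻¹) ^ 2) ^ k * u⁻¹))) := by
  obtain ⟨k, hk, h⟩ := hz (pj M s (ph M s (u * c))) (s b)
  refine ⟨k, hk, ?_⟩
  have e : u * ((c * FreeGroup.of b * c⁻¹) ^ 2) ^ k * u⁻¹ =
      (((u * c) * FreeGroup.of b * (u * c)⁻¹) ^ k) ^ 2 := by
    rw [← pow_mul, ← pow_mul, mul_comm k 2, conj_pow, conj_pow]
    group
  rw [e]
  simp only [map_pow, map_mul (ph M s) (_ * _) _⁻¹, map_mul (ph M s) (u * c),
    map_mul (pj M s) (_ * _) _⁻¹, map_mul (pj M s) (ph M s (u * c)), map_inv, pj_ph]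
  exact h.pow_right 2

theorem zs_tw {z : Art M} (hz : z ∈ Zs M) (u : FreeGroup Bool) :
    ∃ p q r : ℕ, 0 < p ∧ 0 < q ∧ 0 < r ∧ Commute z (pj M s (ph M s (u * tw p q r * u⁻¹))) := by
  obtain ⟨p, hp, h1⟩ := zs_word (s := s) hz u (FreeGroup.of true)⁻¹ false
  obtain ⟨r, hr, h2⟩ := zs_word (s := s) hz u (FreeGroup.of false * FreeGroup.of true)⁻¹ true
  obtain ⟨q, hq, h3⟩ := zs_word (s := s) hz u (FreeGroup.of false) true
  refine ⟨p, q, r, hp, hq, hr, ?_⟩
  change Commute z (pj M s (ph M s (u * (c1 ^ 2) ^ p * u⁻¹))) at h1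
  change Commute z (pj M s (ph M s (u * (c2 ^ 2) ^ r * u⁻¹))) at h2
  change Commute z (pj M s (ph M s (u * (c3 ^ 2) ^ q * u⁻¹))) at h3
  unfold tw
  generalize (c1 ^ 2) ^ p = X at h1 ⊢
  generalize (c2 ^ 2) ^ r = Y at h2 ⊢
  generalize (c3 ^ 2) ^ q = Z at h3 ⊢
  have e : u * (X * Z * Y * (X * Z)⁻¹ * Y⁻¹) * u⁻¹ = (u * X * u⁻¹) * (u * Z * u⁻¹) *
      (u * Y * u⁻¹) * ((u * X * u⁻¹) * (u * Z * u⁻¹))⁻¹ * (u * Y * u⁻¹)⁻¹ := by group
  rw [e]
  generalize u * X * u⁻¹ = X' at h1 ⊢
  generalize u * Y * u⁻¹ = Y' at h2 ⊢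
  generalize u * Z * u⁻¹ = Z' at h3 ⊢
  simp only [map_mul, map_inv]
  exact (((h1.mul_right h3).mul_right h2).mul_right (h1.mul_right h3).inv_right).mul_right
    h2.inv_right

theorem zs_le_six (hm : 6 ≤ M (s true) (s false)) : Zs M ≤ par M (Set.range s ∪ TC M s) := by
  intro z hz
  obtain ⟨a, rfl⟩ := pj_surj (s := s) z
  by_cases hi : ∀ n ∈ Mg (RR M s (M (s true) (s false))) Set.univ,
      n • (a : II M s) ≠ ((1 : Ah M s) : II M s)
  · exfalso
    obtain ⟨x, hx, h⟩ := (sys hm).main _ (hall _) _ hi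
    obtain ⟨u, hu⟩ := mem_TT.1 hx
    obtain ⟨p, q', r', hp, hq, hr', hc⟩ := zs_tw (s := s) hz u
    let g := ph M s (u * tw p q' r' * u⁻¹)
    have e : (a * g * a⁻¹ * g⁻¹) • g • x = vx x.1 (a * ph M s (u * tw p q' r')) := by
      conv_lhs => rw [hu, smul_vx, smul_vx]
      simp [g, mul_assoc]
    obtain ⟨h, hh, t⟩ := h g (by simpa [g] using ii_ph (M := M) (s := s) 1 (u * tw p q' r' * u⁻¹))
      (a * g * a⁻¹ * g⁻¹) (pj_ker hm (by
        have hc' : Commute (pj M s a) (pj M s g) := hc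
        simp only [map_mul (pj M s), map_inv (pj M s), hc'.eq]
        simp)) (e ▸ mem_TT.2 ⟨_, rfl⟩)
    obtain ⟨r, hr, rfl⟩ := hh a rfl
    rw [e, rot_vx] at t
    obtain ⟨q, d1, d2, -⟩ := two_nice t
    obtain ⟨u1, L1, s1⟩ := pc_seg d1
    obtain ⟨u2, L2, s2⟩ := pc_seg d2
    obtain ⟨k0, e0⟩ := vx_ph (hu.symm.trans s1.1)
    obtain ⟨k1, e1⟩ := seg_next s1 s2
    obtain ⟨k2, e2⟩ := vx_ph s2.2.1.symm
    refine far_tw hm s2.2.2.1 s1.2.2.1 (wd_mem _) (wd_mem _) (d0 := x.1) (d1 := q.1) (d2 := x.1)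
      (k0 := k2) (k1 := k1) (k2 := k0) (ρ := u⁻¹ * r * u⁻¹⁻¹)
      (Subgroup.normalClosure_normal.conj_mem _ hr _) hp hq hr' ?_
    rw [inv_inv, mul_assoc, mul_assoc, e2, e1, e0]
    simp only [mul_assoc, inv_mul_cancel_left, vx_fst]
  · push Not at hi
    obtain ⟨n, hn, e⟩ := hi
    obtain ⟨u, g, hg, e⟩ := (ii_eq (a := 1) (a' := n * a)).1 e.symm
    have e2 := congrArg (pj M s) e
    rw [map_mul, pj_rel (by omega) hn, one_mul, one_mul, map_mul, pj_base] at e2
    rw [e2]
    refine mul_mem ?_ (par_mono Set.subset_union_right hg)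
    clear e2 e
    have : ∀ b, pj M s (ph M s (FreeGroup.of b)) ∈ par M (Set.range s ∪ TC M s) := fun b =>
      pj_ph (M := M) b ▸ gen_mem (Or.inl ⟨b, rfl⟩)
    induction u using free_ind with
    | h1 => simp
    | h2 b w ih => rw [map_mul, map_mul]; exact mul_mem (this b) ih
    | h3 b w ih => rw [map_mul, map_mul, map_inv, map_inv]; exact mul_mem (inv_mem (this b)) ih

theorem zs_large (hc : (SimpleGraph.fromRel fun i j : B => M i j ≠ 2).Connected)
    (hi : Infinite M.Group) {i j : B} (hm : M i j = 0 ∨ 6 ≤ M i j) : Zs M = ⊥ := by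
  rcases hm with hm | hm
  · exact normal_eq_bot hc _ zs_normal _ (fun e => by
      have : i ∈ {u | u ≠ i ∧ u ≠ j} := e ▸ Set.mem_univ i
      exact this.1 rfl) (zs_le hm)
  have hij : i ≠ j := by
    rintro rfl
    simp at hm
  let s : Bool ↪ B := ⟨fun b => if b then i else j, fun a b => by
    cases a <;> cases b <;> simp [hij, hij.symm]⟩
  refine normal_eq_bot hc _ zs_normal _ (fun e => ?_) (zs_le_six (s := s) hm)
  obtain ⟨u, hu⟩ : ∃ u, u ∉ Set.range s := by
    by_contra hh
    push Not at hh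
    refine not_finite_iff_infinite.2 hi (finite_two (i := i) (j := j) (fun u => ?_) (by omega))
    obtain ⟨b, rfl⟩ := hh u
    cases b
    · exact Or.inr rfl
    · exact Or.inl rfl
  obtain ⟨p⟩ := hc.preconnected i u
  obtain ⟨d, -, ⟨b, d1⟩, d2⟩ := p.exists_boundary_dart (Set.range s) ⟨true, rfl⟩ hu
  have hadj := d.adj
  rw [SimpleGraph.fromRel_adj] at hadj
  have h2 : d.toProd.2 ∈ Set.range s ∪ TC M s := e ▸ Set.mem_univ _
  have h3 := (h2.resolve_left d2).2 b
  rw [d1] at h3
  rcases hadj.2 with e | e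
  · exact e h3
  · exact e (M.symmetric _ _ ▸ h3)

end Pool.Agent.Lib.MP_6d85b4_al.Icc
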