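import Pool.Agent.Lib.HT.FS.All

set_option autoImplicit false
set_option linter.unusedSectionVars false

/-! The flow stays in a parabolic coset when the top class is supported on its generators. -/

namespace Pool.Agent.Lib.MP_6d85b4_al.Icc

open Pool.Agent.HT Pool.Agent.HT.FS Pool.Agent.HT.Gr Pool.Agent.HT.Chart

theorem val_inv {G S St : Type*} [DecidableEq S] {F : Abs G S St} {Inv : St → Prop}
    {Q : G → Prop}
    (h1 : ∀ a, F.ok a → Inv a → Inv (F.N (F.g a) (F.R a ∪ F.J a)))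
    (h2 : ∀ a, F.ok a → Inv a → F.fin (F.g a) → Q (F.e (F.g a))) (a : St) :
    F.ok a → Inv a → ∀ f, F.val a = some f → Q f := by
  induction a using F.wf.induction with
  | _ a ih =>
    intro ha hl f hf
    by_cases c : F.fin (F.g a)
    · rw [Abs.val_fin c] at hf
      exact Option.some.inj hf ▸ h2 a ha hl c
    by_cases cJ : F.J a = ∅
    · rw [Abs.val_none c cJ] at hf; cases hf
    rw [Abs.val_step ha c cJ] at hf
    exact ih _ (Abs.lt_N ha cJ) (F.ok_N a ha _ (F.sph a ha)) (h1 a ha hl) f hf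

variable {S : Type} [Fintype S] [DecidableEq S] {M : CoxeterMatrix S} {F : FS.Sys M}
  {Y : Finset S} {z : Art M}

theorem pr_par {a : Art M} (ha : a ∈ par M (Y : Set S)) : pr M a ∈ Core.WL M Y := by
  induction ha using Subgroup.closure_induction with
  | mem x hx =>
    obtain ⟨s, hs, rfl⟩ := hx
    rw [pr_gen]
    exact Subgroup.subset_closure ⟨s, hs, rfl⟩
  | one => simp
  | mul x y _ _ hx hy => rw [map_mul]; exact mul_mem hx hy
  | inv x _ hx => rw [map_inv]; exact inv_mem hx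

theorem tau_par {u : M.Group} (hu : u ∈ Core.WL M Y) : tau M u ∈ par M (Y : Set S) := by
  obtain ⟨l, hl, -, e⟩ := Par.tau_eq_word hu
  rw [e]
  refine Subgroup.list_prod_mem _ fun x hx => ?_
  obtain ⟨s, hs, rfl⟩ := List.mem_map.1 hx
  exact gen_mem (hl s hs)

theorem loc_coord {g : Art M} (hg : z⁻¹ * g ∈ par M (Y : Set S)) {t : S} (ht : t ∉ Y)
    (x : S → ℝ) : loc M z x t = loc M g x t := by
  have := Core.coord (pr_par hg) ht (loc M g x)
  rw [← this, map_mul, map_inv, ← rho_mul, mul_inv_cancel_right]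

variable (F Y z) in
/-- in the coset, with class supported on `Y` -/
def Cs (g : Art M) : Prop :=
  z⁻¹ * g ∈ par M (Y : Set S) ∧ ∀ t, t ∉ Y → loc M z (F.y g) t = 0

theorem cs_step {g : Art M} (hg : g ∈ F.X) {s : S} (hs : s ∈ Y) :
    Cs F Y z g ↔ Cs F Y z (g * gen M s) := by
  obtain ⟨k, -, e⟩ := F.a8 g hg s
  have h1 : z⁻¹ * g ∈ par M (Y : Set S) ↔ z⁻¹ * (g * gen M s) ∈ par M (Y : Set S) := by
    rw [← mul_assoc]
    exact (mul_mem_cancel_right (gen_mem (T := (Y : Set S)) hs)).symm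
  have h2 : z⁻¹ * g ∈ par M (Y : Set S) → ∀ t, t ∉ Y →
      loc M z (F.y (g * gen M s)) t = loc M z (F.y g) t := fun h t ht => by
    have : loc M z (rt M g s) t = 0 := by
      rw [loc_coord h ht, rho_inv]
      exact al_ne fun e => ht (e ▸ hs)
    rw [e, map_sub, map_smul, Pi.sub_apply, Pi.smul_apply, this, smul_zero, sub_zero]
  exact ⟨fun h => ⟨h1.1 h.1, fun t ht => (h2 h.1 t ht).trans (h.2 t ht)⟩,
    fun h => ⟨h1.2 h.1, fun t ht => (h2 (h1.2 h.1) t ht).symm.trans (h.2 t ht)⟩⟩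

theorem cs_le {T : Finset S} (hT : T ⊆ Y) {k g : Art M} (hk : k ∈ F.X) (h : Le T k g) :
    Cs F Y z k ↔ Cs F Y z g :=
  h.ind (P := fun g => Cs F Y z k ↔ Cs F Y z g) Iff.rfl
    fun _ _ hs l ih => ih.trans (cs_step (l.up F.upX hk) (hT hs))

theorem cs_J {a : FS.Tr M} (ha : F.St a) (hR : a.R ⊆ Y) (hc : Cs F Y z a.g) : a.J ⊆ Y := by
  intro j hj
  by_contra hn
  have h1 : bf M a.p (rt M a.g j) < 0 := by simpa [FS.Tr.J] using hj
  have h2 : Pos (loc M a.g a.p) := hull_pos (w := (pr M a.g)⁻¹) (by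
    rintro _ ⟨u, -, rfl⟩
    exact F.a9 _ ha.gd.1 u) ha.mem
  have h3 : loc M z a.p j = 0 :=
    hull_eq (m := (LinearMap.proj j).comp (loc M z)) (c := 0) (by
      rintro _ ⟨u, hu, rfl⟩
      exact ((cs_le hR ha.gd.1 (le_tau hu a.g)).1 hc).2 j hn) ha.mem
  rw [loc_coord hc.1 hn] at h3
  have h4 := ip_nonneg_of_zero (M := M) h2 h3
  have h5 : bf M a.p (rt M a.g j) = ip M j (loc M a.g a.p) := by
    rw [← bf_rho M (pr M a.g)⁻¹, rho_inv, bf_symm, bf_al]
  linarith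

theorem u_mem
    (hs : ∀ g ∈ F.X, z⁻¹ * g ∈ par M (Y : Set S) → ∀ s, g * (gen M s)⁻¹ ∉ F.X → s ∈ Y)
    (n : ℕ) : ∀ g ∈ F.X, z⁻¹ * g ∈ par M (Y : Set S) → ∀ w, ln M w = n → g * tau M w ∈ F.X' →
      ∀ u, F.IsU g u → u ∈ Core.WL M Y := by
  induction n using Nat.strong_induction_on with
  | _ n ih =>
  intro g hg hc w hn hw u hu
  by_cases e : g ∈ F.X'
  · have h1 := hu.2 1 (by rwa [tau_one, mul_one])
    rw [Pre, ln, CoxeterSystem.length_one] at h1
    have h2 : ln M u = 0 := by omega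
    rw [M.toCoxeterSystem.length_eq_zero_iff.1 h2]
    exact one_mem _
  obtain ⟨s, hs1⟩ := F.a5 g hg e
  have hsY := hs g hg hc s hs1
  have hd := F.a6 g hg s w hs1 hw
  have h1 : g * gen M s * tau M (sm M s * w) ∈ F.X' := by
    rwa [mul_assoc, ← tau_leftDescent hd]
  have hx := F.upX g hg s
  have hu' := F.finStmt.isU _ hx ⟨_, h1⟩
  generalize Classical.epsilon (F.IsU (g * gen M s)) = u' at hu'
  have h2 := ih _ (hn ▸ hd) _ hx (by
    rw [← mul_assoc]; exact mul_mem hc (gen_mem (T := (Y : Set S)) hsY)) _ rfl h1 u' hu'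
  have h3 : ¬ LD M u' s := fun d => by
    have p := hu'.2 _ h1
    have q := Par.ld_mul (u := u') (v := u'⁻¹ * (sm M s * w))
      (by rw [mul_inv_cancel_left]; exact p) d
    rw [mul_inv_cancel_left] at q
    exact M.toCoxeterSystem.isLeftDescent_iff_not_isLeftDescent_mul.1 hd q
  have h4 := hu.2 (sm M s * u') (by rw [tau_simple_mul h3, ← mul_assoc]; exact hu'.1)
  refine (Par.mem_of_len (u := u) (v := u⁻¹ * (sm M s * u'))
    (by rw [mul_inv_cancel_left]; exact h4) ?_).1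
  rw [mul_inv_cancel_left]
  exact mul_mem (Subgroup.subset_closure ⟨s, hsY, rfl⟩) h2

/-- The pushing theorem with control of parabolic cosets. -/
theorem pushRel (hT : F.Term) : ∃ val : Art M → Option (Art M),
    (∀ g ∈ F.X', val g = some g) ∧ (∀ Lo, F.IsLo Lo →
      (∀ g ∈ F.X, g ∈ Lo → ∀ f, val g = some f → f ∈ F.X' ∩ Lo) ∧
      ∀ g ∈ F.X, ∀ s, g * gen M s ∈ Lo →
        ORel (Conn M (F.X' ∩ Lo)) (val g) (val (g * gen M s))) ∧
    ∀ (Y : Finset S), ∀ z ∈ F.X,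
      (∀ g ∈ F.X, z⁻¹ * g ∈ par M (Y : Set S) → ∀ s, g * (gen M s)⁻¹ ∉ F.X → s ∈ Y) →
      (∀ t, t ∉ Y → loc M z (F.y z) t = 0) →
      ∀ f, val z = some f → z⁻¹ * f ∈ par M (Y : Set S) := by
  have hF := F.finStmt
  have hC := FS.Sys.coreStmt hT
  have hD := FS.Sys.decStmt hT hC
  have hU := FS.Sys.uStmt hT
  obtain ⟨f, hf⟩ := val_rank (M := M) F.a12n F.a12f
  have G := FS.Sys.grSys hT
  let A : Abs (Art M) S (FS.Tr M) :=
    { ok := F.St, g := FS.Tr.g, R := FS.Tr.R, J := FS.Tr.J, Sph := Sph M, N := F.N, fin := F.Fn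
      e := F.en
      lt := fun a b => f a.phi < f b.phi
      wf := (measure (fun a : FS.Tr M => f a.phi)).wf
      mono := fun _ _ h k => h.mono k
      sph := hC.sph
      disj := fun a ha j hj c => by
        have h1 : bf M a.p (rt M a.g j) < 0 := by simpa [FS.Tr.J] using hj
        exact h1.ne (ha.perp j c)
      ok_N := fun a ha T h => (hC.st _ ha.gd.1 T h).1
      R_N := fun a ha T h => (hC.st _ ha.gd.1 T h).2.1
      cls := fun a ha T T' h h' => by
        have h1 := hC.st _ ha.gd.1 T (h'.mono h)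
        have h2 := G.spec (h'.mono h) ha.gd.1
        exact B56.N_congr hC h1.1.gd.1 ha.gd.1 h'
          (G.common h' h2.mem (h1.2.2.mono h) (h2.le.mono h))
      dec := fun a ha T h1 h2 h3 => hf _ _ (hD.val a ha) (hD.dec a ha T h1 h2 h3)
      u := fun a ha T h1 h2 h3 => by
        obtain ⟨g0, R0, k1, k2, k3, k4⟩ := hU a ha T h1 h2 h3
        have e := hC.eq _ ha.gd.1 T h2 _ k1
        have hs := (hC.st _ ha.gd.1 T h2).1
        rw [e] at hs ⊢
        have eJ : FS.Tr.J ⟨g0, R0, a.p⟩ = a.J := by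
          ext j; simp [FS.Tr.J, k4]
        refine ⟨eJ, k2, fun T' k5 k6 => ?_, fun hJ c => ?_⟩
        · exact B56.N_congr hC hs.gd.1 ha.gd.1 k6 (G.of_le k6 hs.gd.1 (k3.mono k5)).symm
        · exact hC.zero a ha (hC.anti ⟨g0, R0, a.p⟩ hs c (eJ.trans hJ)) }
  refine ⟨fun g => A.val ⟨g, ∅, F.y g⟩, fun g hg => ?_, fun Lo hL => ?_,
    fun Y z hz hs h0 k hk => ?_⟩
  · have := Abs.val_fin (F := A) (a := ⟨g, ∅, F.y g⟩) (hF.self g hg).1
    exact this.trans (congrArg some (hF.self g hg).2)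
  · have h1 : ∀ a, A.ok a → A.g a ∈ Lo → ∀ T, A.Sph T → A.g (A.N (A.g a) T) ∈ Lo :=
      fun a ha hl T h => hC.lo Lo hL _ ha.gd.1 hl T h
    have hr : Equivalence (Conn M (F.X' ∩ Lo)) := Relation.EqvGen.is_equivalence _
    have key := Abs.claimA (F := A) (Lo := fun g => g ∈ Lo) hr h1 (fun a ha hl c T h => by
      have k1 := G.spec h ha.gd.1
      have k2 := hF.down Lo hL T _ _ k1.mem k1.le hl c
      obtain ⟨u, -, k3, k4, -⟩ := hC.spec _ ha.gd.1 T h
      have k5 : F.Fn (F.N a.g T).g := k4 ▸ hF.chart _ T ⟨k1.mem, k1.soc⟩ k2.1 u k3.mem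
      have k6 := hF.down Lo hL T _ _ k1.mem (hC.st _ ha.gd.1 T h).2.2 (h1 a ha hl T h) k5
      exact ⟨k5, hr.trans (hr.symm k2.2) k6.2⟩)
    refine ⟨fun g hg hl k hk => Abs.val_mem (F := A) (Lo := fun g => g ∈ Lo)
      (Q := fun g => g ∈ F.X' ∩ Lo) h1 (fun a ha hl c => hF.lo Lo hL _ ha.gd.1 hl c) _
      (B56.st_start hg) hl k hk, fun g hg s hl => ?_⟩
    have hs := F.upX g hg s
    have k1 := key _ (B56.st_start hg) (by simpa using hL.dn _ hl s) {s} (Finset.empty_subset _)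
      (sph_single s)
    have k2 := key _ (B56.st_start hs) hl {s} (Finset.empty_subset _) (sph_single s)
    have e : F.N (g * gen M s) {s} = F.N g {s} :=
      B56.N_congr hC hs hg (sph_single s)
        (G.gr_gen (sph_single s) hg (Finset.mem_singleton_self s))
    change ORel _ _ (A.val (F.N (g * gen M s) {s})) at k2
    rw [e] at k2
    exact ORel.trans hr k1 (ORel.symm hr k2)
  · refine val_inv (F := A) (Inv := fun a => a.R ⊆ Y ∧ Cs F Y z a.g)
      (Q := fun g => z⁻¹ * g ∈ par M (Y : Set S)) (fun a ha hi => ?_) (fun a ha hi c => ?_) _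
      (B56.st_start hz) ⟨Finset.empty_subset _, by simp, h0⟩ k hk
    · have h1 : a.R ∪ a.J ⊆ Y := Finset.union_subset hi.1 (cs_J ha hi.1 hi.2)
      have h2 := hC.st _ ha.gd.1 _ (hC.sph a ha)
      have h3 := G.spec (hC.sph a ha) ha.gd.1
      exact ⟨h2.2.1.trans h1, (cs_le h1 h3.mem h2.2.2).1 ((cs_le h1 h3.mem h3.le).2 hi.2)⟩
    · obtain ⟨w, hw⟩ := c
      have h1 := u_mem hs _ _ ha.gd.1 hi.2.1 w rfl hw _ (hF.isU _ ha.gd.1 ⟨w, hw⟩)
      change z⁻¹ * (a.g * tau M _) ∈ _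
      rw [← mul_assoc]
      exact mul_mem hi.2.1 (tau_par h1)

end Pool.Agent.Lib.MP_6d85b4_al.Icc
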