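import Pool.Agent.Lib.MP_6d85b4_al.Icc.Rel1

set_option autoImplicit false
set_option linter.unusedSectionVars false

/-! The pushing statement for windows, with test objects and parabolic cosets. -/

namespace Pool.Agent.Lib.MP_6d85b4_al.Icc

open Pool.Agent.HT Pool.Agent.HT.FS Pool.Agent.HT.Model Pool.Agent.HT.Heart

universe u

theorem hom_soc' {K : Type} [AddCommGroup K] {D : TD.{u} K} {ι : Type} {H : Heart D ι}
    {P T : D.Obj} {a : ℤ} (h1 : D.hom T (D.sh a P) = 0) (hV : H.V 0 P) (hU : H.U a T)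
    {i : ι} (hi : D.hom (H.S i) P ≠ 0) : D.hom T (D.sh a (H.S i)) = 0 := by
  obtain ⟨N, B, hN, hB, e⟩ := H.trunc 0 P
  have hN' : H.M N := M_iff.2 ⟨hN, Lv.ext
    (V.mono (by omega) ((V_sh (-1)).2 hB)) hV (D.rot' e)⟩
  have h2 : D.hom (H.S i) N ≠ 0 := by
    have h3 := D.les (H.S i) _ _ _ e
    have h4 : D.hom (H.S i) B = 0 := hom_U_V (by omega) (M_iff.1 (M.simple H i)).1 hB
    omega
  obtain ⟨C, hC, e'⟩ := hN'.sub_of_hom h2
  have h5 := D.les T _ _ _ ((D.ext_sh a).2 (D.rot' e'))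
  have h6 := D.les T _ _ _ ((D.ext_sh a).2 (D.rot' e))
  have h7 : D.hom T (D.sh a (D.sh (-1) C)) = 0 :=
    hom_U_V (by omega) hU ((V_sh a).2 ((V_sh (-1)).2 (M_iff.1 hC).2))
  have h8 : D.hom T (D.sh a (D.sh (-1) B)) = 0 :=
    hom_U_V (by omega) hU ((V_sh a).2 ((V_sh (-1)).2 hB))
  omega

variable {S : Type} [Fintype S] [DecidableEq S] {M : CoxeterMatrix S}
  {Md : Model (fun s t => M s t)}

theorem sysY (hM : Small M) (H : Md.GH) {P : Md.D.Obj}
    (hP2 : ∀ e Z, Md.D.hom Z P = 0 → Md.D.hom Z (Md.Phi e P) = 0) :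
    ∃ F : FS.Sys M, F.X = {g | (Model.act hM H g).1.V 0 P} ∧
      F.X' = {g | (Model.act hM H g).1.V (-1) P} ∧ F.y = yv hM H P ∧
      ∀ (T : Md.D.Obj) (lo : ℤ), Md.D.hom T (Md.D.sh lo P) = 0 →
        F.IsLo {g | (Model.act hM H g).1.U lo T} := by
  have all : ∀ g, (Model.act hM H g).1.V 0 P → ∀ s,
      ¬ (Model.act hM H (g * (gen M s)⁻¹)).1.V 0 P → ∀ a,
      Md.D.hom ((Model.act hM H g).1.S (s, a)) P ≠ 0 := fun g hg s h a => by
    obtain ⟨b, hb⟩ := (hsoc hg s).1 h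
    exact GH.soc_all _ hP2 hg hb a
  refine ⟨{
    X := {g | (Model.act hM H g).1.V 0 P}
    X' := {g | (Model.act hM H g).1.V (-1) P}
    y := yv hM H P
    DD := DD
    sub := fun g hg => Heart.V.mono (by omega) hg
    upX := fun g hg s => hup hg s
    upX' := fun g hg s => hup hg s
    a2 := fun g hg R hR w hw => ?_
    a4 := fun g hg R hR u hu i hi hr => ?_
    a5 := fun g hg h => ?_
    a6 := fun g hg s w hs hw => ?_
    a8 := fun g hg s => a8 hg s
    a9 := fun g hg w => a9a hg w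
    a9z := fun g hg => a9b hg
    a9n := fun g hg w u hw => by rw [← map_neg]; exact a9c hg hw u
    a10 := fun h hh j w hj hw => (ha10 hh hj hw).1
    a10y := fun h hh j w hj hw z => ((ha10 hh hj hw).2 z).1
    a10s := fun h hh j w hj hw z => ((ha10 hh hj hw).2 z).2
    a12 := fun g hg s => a12 hg s
    a12n := fun x hx => DD_nonneg hx
    a12f := DD_fin }, rfl, rfl, rfl,
    fun T lo hlo => ⟨fun g hg s => ?_, fun g hg R hR w hw => ?_⟩⟩
  · obtain ⟨l, hl, h1, rfl⟩ := Par.exists_word hw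
    have e := act_tau_word hM H (g * (tau M (M.toCoxeterSystem.wordProd l))⁻¹) hl
    rw [inv_mul_cancel_right] at e
    exact a2_run hM _ hl (e ▸ hg) fun s hs a => e ▸ hsoc' hg (hR s (h1 s hs)) a
  · obtain ⟨l, hl, h1, rfl⟩ := Par.exists_word hu
    refine (hsoc (htau hg _) i).2 ⟨(0, 0), ?_⟩
    rw [act_tau_word hM H g hl]
    refine a4_run hM _ ?_ hg (fun s hs a => all g hg s (hR s ?_) a) _
    · unfold CoxeterSystem.IsReduced
      rw [CoxeterSystem.wordProd_append, CoxeterSystem.wordProd_singleton,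
        M.toCoxeterSystem.not_isRightDescent_iff.1 hr, hl.eq, List.length_append,
        List.length_singleton]
    · rcases List.mem_append.1 hs with c | c
      · exact h1 s c
      · rwa [List.mem_singleton.1 c]
  · obtain ⟨x, hx⟩ := Heart.exists_soc hg h
    exact ⟨x.1, (hsoc hg x.1).2 ⟨x.2, hx⟩⟩
  · obtain ⟨a, ha⟩ := (hsoc hg s).1 hs
    by_contra c
    exact ha (Heart.hom_U_V (by omega)
      (Heart.M_iff.1 (((iv_act hM H g w).S_Tc (s, a)).2 c).2).1 hw)
  · show (Model.act hM H (g * (gen M s)⁻¹)).1.U lo T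
    rw [Model.act_mul]; exact (isUp_act_inv hM _ s).U_le lo T hg
  · obtain ⟨l, hl, h1, rfl⟩ := Par.exists_word hw
    show (Model.act hM H (g * tau M _)).1.U lo T
    rw [act_tau_word hM H g hl]
    exact (unit_run hM _ hl).U_up hg fun A hA hA' => Heart.Lv.hom_right
      (P := fun x n => x.1 ∈ l ∧ n = lo)
      (by rintro ⟨s, a⟩ n ⟨hs, rfl⟩
          exact hom_soc' hlo hR.1 hg (all g hR.1 s (hR.2 s (h1 s hs)) a))
      ((free_supp _ hA hA').1.sh lo fun x n h => ⟨h.1, by rw [h.2, add_zero]⟩)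

/-- Classes containing all shifts of the simples over `Y` are constant on cosets. -/
theorem lv_par (hM : Small M) (H : Md.GH) {Y : Finset S} {a : Art M} (ha : a ∈ par M (Y : Set S))
    {P : S × Irr → ℤ → Prop} (hP : ∀ i n, i.1 ∈ Y → P i n) {T : Md.D.Obj} :
    (Model.act hM H a).1.Lv P T ↔ H.1.Lv P T := by
  have hb : ∀ s ∈ Y, ∀ i ∈ HT.blk s, ∀ n, P i n := fun s hs i hi n =>
    hP i n (by rw [mem_blk.1 hi]; exact hs)
  induction ha using Subgroup.closure_induction_right with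
  | one => rw [Model.act_one]
  | mul_right x _ y hy ih =>
    obtain ⟨s, hs, rfl⟩ := hy
    rw [Model.act_mul]
    exact ((isUp_act hM _ s).Lv_iff (hb s hs) T).symm.trans ih
  | mul_inv_cancel x _ y hy ih =>
    obtain ⟨s, hs, rfl⟩ := hy
    rw [Model.act_mul]
    exact ((isUp_act_inv hM _ s).Lv_iff (hb s hs) T).trans ih

theorem lv_coset (hM : Small M) (H : Md.GH) {Y : Finset S} {z g : Art M}
    (ha : z⁻¹ * g ∈ par M (Y : Set S))
    {P : S × Irr → ℤ → Prop} (hP : ∀ i n, i.1 ∈ Y → P i n) {T : Md.D.Obj} :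
    (Model.act hM H g).1.Lv P T ↔ (Model.act hM H z).1.Lv P T := by
  rw [← lv_par hM (Model.act hM H z) ha hP, ← Model.act_mul, mul_inv_cancel_left]

theorem pushY (hM : Small M) (H : Md.GH) {Q : Md.D.Obj} (hQ : H.1.IsSum (blks Finset.univ) Q)
    (b : ℤ) : ∃ val : Art M → Option (Art M),
      (∀ g, (Model.act hM H g).1.V (b - 1) Q → val g = some g) ∧
      (∀ lo, lo < b → ∀ g s, Model.Wd hM H Q lo b g → Model.Wd hM H Q lo b (g * gen M s) →
          RelO M (Model.Wd hM H Q lo (b - 1)) (val g) (val (g * gen M s))) ∧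
      (∀ T lo, lo < b → H.1.M T → ∀ g f, (Model.act hM H g).1.V b Q →
        (Model.act hM H g).1.U lo T → val g = some f →
        (Model.act hM H f).1.V (b - 1) Q ∧ (Model.act hM H f).1.U lo T) ∧
      ∀ (Y : Finset S) z f, (Model.act hM H z).1.V b Q →
        (Model.act hM H z).1.Lv (fun i m => m < b ∨ i.1 ∈ Y) Q → val z = some f →
        z⁻¹ * f ∈ par M (Y : Set S) := by
  obtain ⟨F, e1, e2, e3, hL⟩ := sysY hM H (P := Md.D.sh (-b) Q)
    (fun e Z hZ => H.2.sum_Phi hQ (-b) e hZ)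
  obtain ⟨val, v1, v2, v5⟩ := pushRel (termC_thm S M hM Md H Q b F hQ e1)
  have kV : ∀ (g : Art M) (c : ℤ), (Model.act hM H g).1.V (c - b) (Md.D.sh (-b) Q) ↔
      (Model.act hM H g).1.V c Q := fun g c => Heart.V_sh (-b)
  have kU : ∀ (T : Md.D.Obj) (g : Art M) (c : ℤ),
      (Model.act hM H g).1.U (c - b) (Md.D.sh (-b) T) ↔
      (Model.act hM H g).1.U c T := fun T g c => Heart.U_sh (-b)
  have k0 : ∀ g, g ∈ F.X ↔ (Model.act hM H g).1.V b Q := fun g => by
    rw [e1, ← kV, sub_self]; rfl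
  have k1 : ∀ g, g ∈ F.X' ↔ (Model.act hM H g).1.V (b - 1) Q := fun g => by
    rw [e2, ← kV, show b - 1 - b = -1 by ring]; rfl
  have k2 : ∀ T lo, lo < b → H.1.M T →
      F.IsLo {g | (Model.act hM H g).1.U (lo - b) (Md.D.sh (-b) T)} := fun T lo hlo hT =>
    hL _ _ (by
      rw [Md.D.sh_sh, Md.D.hom_sh_sh]
      exact hT.hom_neg hQ.mem (by omega))
  refine ⟨val, fun g hg => v1 g ((k1 g).2 hg), fun lo hlo g s hg hs => ?_,
    fun T lo hlo hT g f hg hu hf => ?_, fun Y z f hz hl hf => ?_⟩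
  · have h := (v2 _ (k2 Q lo hlo hQ.mem)).2 g ((k0 g).2 hg.2) s ((kU _ _ lo).2 hs.1)
    revert h
    cases val g <;> cases val (g * gen M s) <;> intro h
    · exact Or.inl ⟨rfl, rfl⟩
    · exact h.elim
    · exact h.elim
    · refine Or.inr ⟨_, _, rfl, rfl, CnA.mono (P := fun g => g ∈ F.X' ∩ _) (fun g hg => ?_) h⟩
      exact ⟨(kU _ g lo).1 hg.2, (k1 g).1 hg.1⟩
  · obtain ⟨a1, a2⟩ := (v2 _ (k2 T lo hlo hT)).1 g ((k0 g).2 hg) ((kU T g lo).2 hu) f hf
    exact ⟨(k1 f).1 a1, (kU T f lo).1 a2⟩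
  · have key : ∀ g, g ∈ F.X → z⁻¹ * g ∈ par M (Y : Set S) → (Model.act hM H g).1.Lv
        (fun i m => m < 0 ∨ (m = 0 ∧ i.1 ∈ Y)) (Md.D.sh (-b) Q) := fun g hg hc =>
      (((lv_coset hM H hc fun i n h => Or.inr h).2 hl).inter_V ((k0 g).1 hg)).sh (-b)
        fun i n h => by
          rcases h with ⟨h | h, h'⟩
          · left; omega
          · rcases h'.lt_or_eq with c | c
            · left; omega
            · exact Or.inr ⟨by omega, h⟩
    refine v5 Y z ((k0 z).2 hz) (fun g hg hc s hs => ?_) (fun t ht => ?_) f hf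
    · have h1 := key g hg hc
      rw [e1] at hg hs
      obtain ⟨a, ha⟩ := (hsoc hg s).1 hs
      by_contra hn
      refine ha (h1.hom_right fun i n h => ?_)
      rw [← Md.D.sh_zero ((Model.act hM H g).1.S (s, a))]
      refine Heart.hom_simple _ (h.imp id fun h => ⟨h.1, fun e => hn ?_⟩)
      have := h.2
      rwa [← e] at this
    · rw [e3]
      show rho M (pr M z)⁻¹ (yv hM H _ z) t = 0
      rw [yv_co]
      obtain ⟨A, B, hA, hB, hE⟩ := (key z ((k0 z).2 hz) (by simp)).trunc 0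
      rw [Heart.top_eq (hA.mono fun _ _ h => h.2) (hB.mono fun _ _ h => by omega) hE]
      exact GH.c_eq_zero _ (P := fun s => s ∈ Y)
        (hA.mono fun _ _ h => (h.1.resolve_left (by omega)).2) ht

end Pool.Agent.Lib.MP_6d85b4_al.Icc
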