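import Pool.Agent.Lib.MP_6d85b4_al.Icc.Rel2

set_option autoImplicit false
set_option linter.unusedSectionVars false

/-! Shrinking windows inside a parabolic coset. -/

namespace Pool.Agent.Lib.MP_6d85b4_al.Icc

open Pool.Agent.HT Pool.Agent.HT.Model

variable {S : Type} [Fintype S] [DecidableEq S] {M : CoxeterMatrix S}
  {Md : Model (fun s t => M s t)}

theorem finite_of_neg' {L : Finset S} {w : M.Group} (h : ∀ s ∈ L, Pos (-rho M w (al s))) :
    Finite (Tits.W M L) := by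
  have h1 : {g | Tits.Rt M L g ∧ Tits.PosAt M 1 g}.Finite := by
    refine (Tits.fin_sep (L := L) 1 w⁻¹).subset fun g ⟨h1, h2⟩ => ⟨h1, h2, fun h3 => ?_⟩
    have h4 := neg_cn h ⟨(Tits.posAt_one _).1 h2, h1.sup⟩
    exact h1.not_both h3 (by unfold Tits.PosAt; rw [inv_inv, map_neg]; exact h4)
  refine Tits.finite_of_roots ((h1.union (h1.image fun g => -g)).subset fun g hg => ?_)
  rcases Tits.Rt.dich hg 1 with h2 | h2
  · exact Or.inl ⟨hg, h2⟩
  · exact Or.inr ⟨-g, ⟨Tits.Rt.neg hg, h2⟩, neg_neg g⟩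

variable {hM : Small M} {H : Md.GH} {Q : Md.D.Obj}

theorem val_some (hQ : H.1.IsSum (blks Finset.univ) Q) {b : ℤ} (hb : 0 < b)
    {val : Art M → Option (Art M)}
    (v1 : ∀ g, (Model.act hM H g).1.V (b - 1) Q → val g = some g)
    (v2 : ∀ lo, lo < b → ∀ g s, Model.Wd hM H Q lo b g → Model.Wd hM H Q lo b (g * gen M s) →
      RelO M (Model.Wd hM H Q lo (b - 1)) (val g) (val (g * gen M s)))
    {g : Art M} (hg : (Model.act hM H g).1.V b Q) : ∃ f, val g = some f := by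
  obtain ⟨N, hN⟩ := cn_big hM H Q g
  obtain ⟨k, hk⟩ : ∃ k : ℕ, N ≤ k := ⟨N.toNat, by omega⟩
  have h1 := lower pushC_thm hQ (show -(b + k) ≤ b by omega) ((wd_one hQ).2.mono hb.le) hg k
    (hN (b + k) (by omega))
  have h2 := RelO.of_cn (v2 _ (by omega)) h1
  rw [v1 1 ((wd_one hQ).2.mono (by omega))] at h2
  rcases h2 with ⟨h3, -⟩ | ⟨f', f, -, h4, -⟩
  · cases h3
  · exact ⟨f, h4⟩

theorem lowerY (hQ : H.1.IsSum (blks Finset.univ) Q) {Y : Finset S} {lo c : ℤ} (h0 : 0 ≤ c)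
    (hlo : lo ≤ c) (k : ℕ) : ∀ z, Model.Wd hM H Q lo (c + k) z →
      (Model.act hM H z).1.Lv (fun i m => m ≤ c ∨ i.1 ∈ Y) Q →
      ∃ f, z⁻¹ * f ∈ par M (Y : Set S) ∧ Model.Wd hM H Q lo c f := by
  induction k with
  | zero => exact fun z hz _ => ⟨z, by simp, by simpa using hz⟩
  | succ k ih =>
    intro z hz hl
    obtain ⟨val, v1, v2, v3, v4⟩ := pushY hM H hQ (c + (k + 1 : ℕ))
    obtain ⟨f, hf⟩ := val_some hQ (by omega) v1 v2 hz.2
    have h1 := v3 Q lo (by omega) hQ.mem z f hz.2 hz.1 hf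
    have h2 := v4 Y z f hz.2 (hl.mono fun _ _ h => h.imp (by omega) id) hf
    obtain ⟨f', h3, h4⟩ := ih f ⟨h1.2, h1.1.mono (by omega)⟩
      ((lv_coset hM H h2 fun _ _ h => Or.inr h).2 hl)
    exact ⟨f', by simpa [mul_assoc] using mul_mem h2 h3, h4⟩

theorem invA_par {Y : Set S} {a : Art M} (ha : a ∈ par M Y) : invA M a ∈ par M Y := by
  induction ha using Subgroup.closure_induction with
  | mem x hx =>
    obtain ⟨s, hs, rfl⟩ := hx
    rw [invA_gen]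
    exact inv_mem (gen_mem hs)
  | one => simp
  | mul x y _ _ hx hy => rw [map_mul]; exact mul_mem hx hy
  | inv x _ hx => rw [map_inv]; exact inv_mem hx

theorem op_lv (g : Art M) (P : S × Irr → ℤ → Prop) (T : Md.D.Obj) :
    (Model.act hM H.op (invA M g)).1.Lv P T ↔
      (Model.act hM H g).1.Lv (fun i n => P i (-n)) T := by
  rw [act_op, invA_invA]
  exact Heart.op_Lv _ P T

theorem raiseY (hQ : H.1.IsSum (blks Finset.univ) Q) {Y : Finset S} {c hi : ℤ} (h0 : c ≤ 0)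
    (hhi : c ≤ hi) (k : ℕ) (z : Art M) (hz : Model.Wd hM H Q (c - k) hi z)
    (hl : (Model.act hM H z).1.Lv (fun i m => c ≤ m ∨ i.1 ∈ Y) Q) :
    ∃ f, z⁻¹ * f ∈ par M (Y : Set S) ∧ Model.Wd hM H Q c hi f := by
  have h1 := hz.op
  rw [show -(c - (k : ℤ)) = -c + k by ring] at h1
  obtain ⟨f, h2, h3⟩ := lowerY (hM := hM) (isSum_op hQ) (Y := Y) (by omega) (by omega) k _ h1
    ((op_lv z _ Q).2 (hl.mono fun _ _ h => h.imp (by omega) id))
  refine ⟨invA M f, ?_, Model.Wd.unop h3⟩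
  have := invA_par h2
  rwa [map_mul, map_inv, invA_invA] at this

theorem no_pos (hQ : H.1.IsSum (blks Finset.univ) Q) {X : Finset S} {n : ℤ} (hn : 0 < n)
    {f : Art M} (hf : (Model.act hM H f).1.V n Q)
    (hX : ∀ s ∈ X, ∃ a, (Model.act hM H f).1.Lv (fun i m => i.1 = s ∧ m = n) (H.1.S (s, a))) :
    Finite (Tits.W M X) := by
  obtain ⟨val, v1, v2, v3, -⟩ := pushY hM H hQ n
  obtain ⟨g, hg⟩ := val_some hQ hn v1 v2 hf
  refine finite_of_neg' (w := (pr M (f⁻¹ * g))⁻¹) fun s hs => ?_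
  obtain ⟨a, ha⟩ := hX s hs
  obtain ⟨h1, h2⟩ := v3 _ (n - 1) (by omega) (Heart.M.simple H.1 (s, a)) f g hf
    (ha.mono fun _ _ h => by omega) hg
  have h3 := (hQ.V_iff _ _).1 h1 (s, a) (mem_blks.2 (Finset.mem_univ _))
  have h4 : (Model.act hM H g).1.M (Md.D.sh 1 (Md.D.sh (-n) (H.1.S (s, a)))) := by
    rw [Md.D.sh_sh]
    exact Heart.M_iff.2 ⟨h2.sh _ fun _ _ h => by omega, h3.sh _ fun _ _ h => by omega⟩
  have h5 : (Model.act hM H f).1.Lv (fun x m => x ∈ HT.blk s ∧ m = 0)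
      (Md.D.sh (-n) (H.1.S (s, a))) := ha.sh _ fun _ _ h => ⟨mem_blk.2 h.1, by omega⟩
  obtain ⟨k, hk, e⟩ := GH.c_blk _ h5
  have h6 : k ≠ 0 := fun c => by
    rw [c, zero_smul, GH.c_zero_iff _ (h5.mono fun _ _ h => h.2)] at e
    exact H.S_ne (s, a) (Md.D.sh_inj (-n) (by rw [e, Md.D.sh_zero_obj]))
  have h7 := GH.c_sh _ h4
  rw [show g = f * (f⁻¹ * g) by simp, Model.act_mul, ← c_act', e, map_smul, ← smul_neg] at h7
  exact (pos_smul_iff (hk.lt_of_ne' h6) _).1 h7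

/-- The conclusion from the level structure of the moved heart. -/
theorem mem_par_of_levels (H : Md.GH) {X Y : Finset S} (hi : Infinite (Tits.W M X))
    {z : Art M} {n : ℤ}
    (h1 : ∀ x, (Model.act hM H z).1.Lv (fun i m => m = n ∨ i.1 ∈ Y) (H.1.S x))
    (h2 : ∀ f, z⁻¹ * f ∈ par M (Y : Set S) → ∀ s ∈ X, ∃ a,
      (Model.act hM H f).1.Lv (fun i m => i.1 = s ∧ m = n) (H.1.S (s, a))) :
    z ∈ par M (Y : Set S) := by
  obtain ⟨Q, hQ⟩ := H.1.exists_sum (blks Finset.univ)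
  have hl : (Model.act hM H z).1.Lv (fun i m => m = n ∨ i.1 ∈ Y) Q :=
    Heart.Lv.ind (R := fun T => (Model.act hM H z).1.Lv (fun i m => m = n ∨ i.1 ∈ Y) T)
      Heart.Lv.zero (fun x m h => by rw [h.2, Md.D.sh_zero]; exact h1 x)
      (fun _ _ _ hE hA hB => Heart.Lv.ext hA hB hE) hQ.lv
  obtain ⟨N, hN⟩ := exists_Wd hM H Q z
  obtain ⟨k, hk⟩ : ∃ k : ℕ, N ≤ k := ⟨N.toNat, by omega⟩
  obtain ⟨g, g1, g2⟩ := lowerY (hM := hM) hQ (Y := Y) (lo := min n 0 - k) (c := max n 0)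
    (by omega) (by omega) k z ((hN k hk).mono (by omega) (by omega))
    (hl.mono fun _ _ h => h.imp (by omega) id)
  obtain ⟨f, f1, f2⟩ := raiseY (hM := hM) hQ (Y := Y) (by omega) (by omega) k g g2
    (((lv_coset hM H g1 fun _ _ h => Or.inr h).2 hl).mono fun _ _ h => h.imp (by omega) id)
  have f3 : z⁻¹ * f ∈ par M (Y : Set S) := by simpa [mul_assoc] using mul_mem g1 f1
  rcases lt_trichotomy n 0 with c | c | c
  · refine absurd (no_pos (hM := hM) (isSum_op hQ) (X := X) (n := -n) (by omega) (f := invA M f)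
      (f2.op.2.mono (by omega)) fun s hs => ?_) (not_finite_iff_infinite.2 hi)
    obtain ⟨a, ha⟩ := h2 f f3 s hs
    exact ⟨a, (op_lv f _ _).2 (ha.mono fun _ _ h => ⟨h.1, by omega⟩)⟩
  · have e := eq_of_cn hQ (cn_window pushC_thm hQ le_rfl (f2.mono (by omega) (by omega)))
    rw [← e, mul_one] at f3
    exact (inv_mem_iff).1 f3
  · exact absurd (no_pos hQ c (f2.2.mono (by omega)) (h2 f f3)) (not_finite_iff_infinite.2 hi)

end Pool.Agent.Lib.MP_6d85b4_al.Icc
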