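import Pool.Agent.Lib.HT.FS.All
import Pool.Agent.Lib.HT.Centre2
import Pool.Agent.Lib.MP_6d85b4_al.Icc.Large

set_option autoImplicit false
set_option linter.unusedSectionVars false

/-! Elements commuting with a power of every generator: labels two to five; and the assembly. -/

namespace Pool.Agent.Lib.MP_6d85b4_al.Icc

open Pool.Agent.HT Pool.Agent.HT.Model

variable {S : Type} [Fintype S] [DecidableEq S] {M : CoxeterMatrix S}
  {Md : Model (fun s t => M s t)}

theorem pow_blk (hM : Small M) (H : Md.GH) {a : Art M} (x : S × Irr) {k : ℕ} (hk : 0 < k)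
    (ha : Commute a (gen M x.1 ^ k)) :
    (Model.act hM H a).1.Lv (fun i _ => i ∈ HT.blk x.1) (H.1.S x) := by
  obtain ⟨N, hN⟩ := near (Md := Md) hM a
  obtain ⟨L, hL, hc⟩ : ∃ L : ℕ, 2 * N + 1 ≤ L ∧ Commute (gen M x.1 ^ L) a :=
    ⟨k * (2 * N + 1), Nat.le_mul_of_pos_left _ hk, by rw [pow_mul]; exact ha.symm.pow_left _⟩
  have h1 : (Model.act hM H a).1.U (-N) (H.1.S x) :=
    (hN H _ _).1 (by simpa using (Heart.M_iff.1 (Heart.M.simple H.1 x)).1)
  have h2 : (Model.act hM H (gen M x.1 ^ L)).1.V 0 (Md.D.sh L (H.1.S x)) := by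
    rw [← pow_S hM]; exact (Heart.M_iff.1 (Heart.M.simple _ x)).2
  have h3 : (Model.act hM (Model.act hM H (gen M x.1 ^ L)) a).1.V N (Md.D.sh L (H.1.S x)) :=
    Heart.V_of_U (b := 0) (fun Y hY => (hN _ _ Y).2 (hY.mono (by omega))) _ h2
  rw [← Model.act_mul, hc.eq, Model.act_mul] at h3
  have h4 := pow_Lv hM (Model.act hM H a) x.1 L (Q := fun n => n ≤ N)
    (Heart.Lv.mono (fun _ _ h => Or.inr h) h3)
  have h5 : (Model.act hM H a).1.Lv (fun i n => i ∈ HT.blk x.1 ∨ n < -N)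
      (Md.D.sh (-(L : ℤ)) (Md.D.sh L (H.1.S x))) :=
    h4.sh _ (fun i n h => h.imp id (fun h => by omega))
  rw [Md.D.sh_sh, neg_add_cancel, Md.D.sh_zero] at h5
  exact (h5.inter_U h1).mono (fun i n h => h.1.resolve_right (by omega))

theorem pow_level (hM : Small M) (H : Md.GH) {a : Art M} (x : S × Irr) {k : ℕ} (hk : 0 < k)
    (ha : Commute a (gen M x.1 ^ k)) :
    ∃ c : ℤ, (Model.act hM H a).1.Lv (fun i n => i.1 = x.1 ∧ n = c) (H.1.S x) := by
  obtain ⟨y, hy, h1⟩ :=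
    ((Model.act hM H a).2.orth x.1).brick_single (H.1.one x) (pow_blk hM H x hk ha)
  obtain ⟨c, h2⟩ := Heart.single_level (by rw [H.1.one]; omega) (H.1.neg x x) h1
  exact ⟨c, h2.mono (fun i n h => ⟨by rw [h.1]; exact mem_blk.1 hy, h.2⟩)⟩

theorem pow_shift (hM : Small M)
    (hc : (SimpleGraph.fromRel (fun i j : S => M i j ≠ 2)).Connected) (H : Md.GH) {a : Art M}
    (ha : ∀ s, ∃ k : ℕ, 0 < k ∧ Commute a (gen M s ^ k)) :
    ∃ n : ℤ, ∀ Y, (Model.act hM H a).1.U 0 Y ↔ H.1.U n Y := by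
  have h0 : ∀ x : S × Irr, ∃ c : ℤ, (Model.act hM H a).1.Lv (fun i n => i.1 = x.1 ∧ n = c) (H.1.S x) :=
    fun x => by
      obtain ⟨k, hk, h⟩ := ha x.1
      exact pow_level hM H x hk h
  choose c hcx using h0
  set H' := Model.act hM H a
  have hblk : ∀ (s : S) g, c (s, g) = c (s, (1, 1)) := fun s =>
    irr_const (f := fun g => c (s, g)) (fun e g g' h => by
      have h1 := level_fus h (hcx (s, g)) (hcx (s, g'))
      have h2 := level_fus (show nF e g' g = 1 by rw [nF_symm]; exact h) (hcx (s, g'))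
        (hcx (s, g))
      omega)
  have hedge : ∀ s t : S, s ≠ t → M s t ≠ 2 → c (s, (1, 1)) = c (t, (1, 1)) := by
    intro s t hst h
    obtain ⟨g, g', hg⟩ := exists_nL (m := M s t) ((hM s t hst).resolve_left h)
    rw [← hblk s g, ← hblk t g']
    exact level_edge hst hg (hcx (s, g)) (hcx (t, g'))
  obtain ⟨s₀⟩ := hc.nonempty
  have hall : ∀ x : S × Irr, c x = c (s₀, (1, 1)) := by
    rintro ⟨s, g⟩
    rw [hblk s g]
    obtain ⟨w⟩ := hc.preconnected s s₀
    induction w with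
    | nil => rfl
    | cons h _ ih =>
      rw [← ih]
      rw [SimpleGraph.fromRel_adj] at h
      refine hedge _ _ h.1 ?_
      rcases h.2 with h2 | h2
      · exact h2
      · rwa [M.symmetric]
  obtain ⟨n, hn⟩ : ∃ n, ∀ x, c x = n := ⟨_, hall⟩
  have hL : ∀ (P Q : ℤ → Prop), (∀ m, P m → Q (m + n)) → ∀ Y, H.1.Lv (fun _ m => P m) Y →
      H'.1.Lv (fun _ m => Q m) Y := by
    intro P Q hPQ Y hY
    refine Heart.Lv.ind (R := fun Y => H'.1.Lv (fun _ m => Q m) Y) Heart.Lv.zero ?_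
      (fun A Y B hE hA hB => Heart.Lv.ext hA hB hE) hY
    intro i m hm
    exact (hcx i).sh m (fun j p h => by rw [h.2, hn]; exact hPQ m hm)
  refine ⟨-n, fun Y => ⟨fun hY => ?_, fun hY => ?_⟩⟩
  · exact Heart.U_of_V (fun Y hY => hL (fun m => m ≤ -n - 1) (fun m => m ≤ 0 - 1)
      (fun m h => by omega) Y hY) Y hY
  · exact hL (fun m => -n ≤ m) (fun m => 0 ≤ m) (fun m h => by omega) Y hY

/-- Labels two to five: powers of the standard generators suffice. -/
theorem small_eq_one (hM : Small M)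
    (hc : (SimpleGraph.fromRel (fun i j : S => M i j ≠ 2)).Connected) (hi : Infinite M.Group)
    {a : Art M} (ha : ∀ s, ∃ k : ℕ, 0 < k ∧ Commute a (gen M s ^ k)) : a = 1 := by
  obtain ⟨Md⟩ := Pool.Agent.HM.modelStmt S (fun s t => M s t) M.symmetric
  obtain ⟨k, hk⟩ := pow_shift (Md := Md) hM hc ⟨Md.H, Md.good_H⟩ ha
  exact free_thm S M hM Md hc hi _ a k hk

theorem zs_bot (hc : (SimpleGraph.fromRel (fun i j : S => M i j ≠ 2)).Connected)
    (hi : Infinite M.Group) : Zs M = ⊥ := by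
  by_cases h : ∃ i j : S, M i j = 0 ∨ 6 ≤ M i j
  · obtain ⟨i, j, h⟩ := h
    exact zs_large hc hi h
  · push Not at h
    have hM : Small M := fun s t hst => by
      have e1 := h s t
      have e2 := M.off_diagonal s t hst
      omega
    refine eq_bot_iff.2 (fun a ha => small_eq_one hM hc hi fun s => ?_)
    simpa using ha 1 s

end Pool.Agent.Lib.MP_6d85b4_al.Icc
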