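import Pool.Agent.Lib.MP_6d85b4_al.Icc.Rel3
import Pool.Agent.Lib.MP_6d85b4_al.Icc.Small
import Pool.Agent.Lib.HT.Orth

set_option autoImplicit false
set_option linter.unusedSectionVars false

/-! Centralisers of powers of the generators of a non-spherical irreducible set: small labels. -/

namespace Pool.Agent.Lib.MP_6d85b4_al.Icc

open Pool.Agent.HT Pool.Agent.HT.Model

universe u

theorem coh_ind {K : Type} [AddCommGroup K] {D : TD.{u} K} {ι : Type} {H : Heart D ι}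
    {T : D.Obj} {P : ι → ℤ → Prop}
    (h : ∀ q A B C B', H.U (q + 1) A → D.Ext A T B → H.U q C → H.V q C → H.V (q - 1) B' →
      D.Ext C B B' → H.Lv P C) : H.Lv P T := by
  obtain ⟨N, h1, h2⟩ := H.bounded T
  have key : ∀ k : ℕ, ∀ q A B, H.U (q + 1) A → D.Ext A T B → H.V q B → q + N < k → H.Lv P B := by
    intro k
    induction k with
    | zero =>
      intro q A B hA hE hB hq
      have e1 := D.les' B (D.rot1 hE)
      have e2 := D.les' B (D.rot1 (D.rot1 hE))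
      have e3 : D.hom T B = 0 := Heart.hom_U_V (by omega) h1 hB
      have e4 : D.hom (D.sh 1 A) B = 0 := Heart.hom_U_V (by omega) ((Heart.U_sh 1).2 hA) hB
      rw [D.eq_zero B (by omega)]
      exact Heart.Lv.zero
    | succ k ih =>
      intro q A B hA hE hB hq
      obtain ⟨C, B', hC, hB', e⟩ := H.trunc q B
      have hV : H.V q C :=
        Heart.Lv.ext (Heart.V.mono (by omega) ((Heart.V_sh (-1)).2 hB')) hB (D.rot' e)
      obtain ⟨F, f1, f2⟩ := D.assoc' hE e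
      exact Heart.Lv.ext (h q A B C B' hA hE hC hV hB' e) (ih (q - 1) F B'
        (Heart.Lv.ext (hA.mono (by omega)) (hC.mono (by omega)) f1) f2 hB' (by omega)) e
  exact key (2 * N + 1).toNat N D.zero T Heart.Lv.zero (D.ext_zero T) h2 (by omega)

variable {S : Type} [Fintype S] [DecidableEq S] {M : CoxeterMatrix S}
  {Md : Model (fun s t => M s t)} {X : Finset S}

variable (M) in
/-- the generators commuting with all of `X` -/
def perp (X : Finset S) : Finset S := Finset.univ.filter fun t => ∀ s ∈ X, M s t = 2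

theorem mem_perp {t : S} : t ∈ perp M X ↔ ∀ s ∈ X, M s t = 2 := by simp [perp]

theorem not_mem_perp {s : S} (hs : s ∈ X) : s ∉ perp M X := fun h => by
  simpa using mem_perp.1 h s hs

theorem exists_pf (hc : Aff.Conn M X) (hi : Infinite (Tits.W M X)) :
    ∃ d, Aff.Sup X d ∧ ∀ s ∈ X, 0 < d s ∧ 0 ≤ ip M s d := by
  rcases Aff.trichotomy hc with h | ⟨d, h⟩ | ⟨d, h1, h2⟩
  · exact absurd (sph_finite h) (not_finite_iff_infinite.2 hi)
  · exact ⟨d, h.sup, fun s hs => ⟨h.pos s hs, (h.rad s hs).ge⟩⟩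
  · exact ⟨d, h1, fun s hs => ⟨(h2 s hs).1, (h2 s hs).2.le⟩⟩

theorem pf_supp (hc : Aff.Conn M X) (hi : Infinite (Tits.W M X)) {v : S → ℝ} (hv : Pos v)
    (h : ∀ s ∈ X, ip M s v ≤ 0) :
    (∀ s ∈ X, ip M s v = 0) ∧ ∀ t, ¬ (t ∈ X ∨ t ∈ perp M X) → v t ≤ 0 := by
  obtain ⟨d, h1, h2⟩ := exists_pf hc hi
  have a : ∀ i ∈ Finset.univ, d i * ip M i v ≤ 0 := fun i _ => by
    by_cases c : i ∈ X
    · exact mul_nonpos_of_nonneg_of_nonpos (h2 i c).1.le (h i c)
    · rw [h1 i c, zero_mul]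
  have t0 : ∀ i, i ∉ X → ∀ j ∈ Finset.univ, 0 ≤ cc M i j * d j := fun i c j _ => by
    by_cases e : j ∈ X
    · exact mul_nonneg (Core.cc_nonneg fun k => c (k ▸ e)) (h2 j e).1.le
    · rw [h1 j e, mul_zero]
  have b : ∀ i ∈ Finset.univ, 0 ≤ v i * ip M i d := fun i _ => by
    refine mul_nonneg (hv i) ?_
    by_cases c : i ∈ X
    · exact (h2 i c).2
    · rw [ip_apply]; exact Finset.sum_nonneg (t0 i c)
  have e1 : bf M d v ≤ 0 := Finset.sum_nonpos a
  have e2 : 0 ≤ bf M v d := Finset.sum_nonneg b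
  have e3 := bf_symm M d v
  have a' := (Finset.sum_eq_zero_iff_of_nonpos a).1 (show bf M d v = 0 by linarith)
  have b' := (Finset.sum_eq_zero_iff_of_nonneg b).1 (show bf M v d = 0 by linarith)
  refine ⟨fun s hs => (mul_eq_zero.1 (a' s (Finset.mem_univ s))).resolve_left (h2 s hs).1.ne',
    fun t ht => ?_⟩
  rw [not_or] at ht
  refine ((mul_eq_zero.1 (b' t (Finset.mem_univ t))).resolve_right fun c => ht.2 ?_).le
  rw [ip_apply, Finset.sum_eq_zero_iff_of_nonneg (t0 t ht.1)] at c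
  refine mem_perp.2 fun s hs => ?_
  rw [M.symmetric]
  exact eq_two_of_cc M
    ((mul_eq_zero.1 (c s (Finset.mem_univ s))).resolve_right (h2 s hs).1.ne')

theorem ext_two (K : Md.GH) {i j : S × Irr} (h : M i.1 j.1 = 2) :
    Md.D.hom (K.1.S i) (Md.D.s (K.1.S j)) = 0 := by
  have hne : i.1 ≠ j.1 := fun e => by simp [e] at h
  have h1 := K.1.form_ne (i := i) (j := j) fun e => hne (congrArg Prod.fst e)
  rw [K.2.gram] at h1
  simp only [cartan, hne, if_false, h, nL] at h1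
  simpa using h1

theorem supp_perp (hM : Small M) (hc : Aff.Conn M X) (hi : Infinite (Tits.W M X)) (K : Md.GH)
    {N : Md.D.Obj} (hN : K.1.M N)
    (h : ∀ x : S × Irr, x.1 ∈ X → Md.D.hom (K.1.S x) (Md.D.s N) = 0) :
    K.1.Lv (fun i m => i.1 ∈ perp M X ∧ m = 0) N := by
  have e : ∀ s ∈ X, -ip M s (K.c (Md.D.cl N)) =
      ∑ a, fp a * ((Md.D.hom N (K.1.S (s, a)) : ℝ) + Md.D.hom (K.1.S (s, a)) N) := fun s hs => by
    rw [GH.ip_eq hM]
    refine Finset.sum_congr rfl fun a _ => ?_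
    rw [← K.1.cl_S, hN.euler (Heart.M.simple _ _), Heart.ext_symm, h (s, a) hs]
    push_cast
    ring
  have p : ∀ s, ∀ a ∈ Finset.univ, 0 ≤
      fp a * ((Md.D.hom N (K.1.S (s, a)) : ℝ) + Md.D.hom (K.1.S (s, a)) N) := fun s a _ =>
    mul_nonneg (fp_pos a).le (by positivity)
  obtain ⟨h1, h2⟩ := pf_supp hc hi (K.c_M hN) fun s hs => by
    have := Finset.sum_nonneg (p s)
    linarith [e s hs]
  have h3 : ∀ x : S × Irr, x.1 ∈ X → Md.D.hom (K.1.S x) N = 0 := fun x hx => by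
    have k := e x.1 hx
    rw [h1 _ hx, neg_zero, eq_comm, Finset.sum_eq_zero_iff_of_nonneg (p _)] at k
    have k2 := (mul_eq_zero.1 (k x.2 (Finset.mem_univ _))).resolve_left (fp_pos _).ne'
    have k3 : Md.D.hom N (K.1.S x) + Md.D.hom (K.1.S x) N = 0 := by exact_mod_cast k2
    omega
  obtain ⟨A, B, hA, hB, hE⟩ := TD.Cl.sort (D := Md.D)
    (X₁ := {A | ∃ i n, (i.1 ∈ X ∧ n = 0) ∧ A = Md.D.sh n (K.1.S i)})
    (X₂ := {A | ∃ i n, (i.1 ∈ perp M X ∧ n = 0) ∧ A = Md.D.sh n (K.1.S i)}) (Y := N) (by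
      rintro _ ⟨i, p, ⟨hi, rfl⟩, rfl⟩ _ ⟨j, q, ⟨hj, rfl⟩, rfl⟩
      rw [Md.D.sh_zero, Md.D.sh_zero]
      exact ext_two K (mem_perp.1 hj _ hi)) (TD.Cl.mono (by
      rintro _ ⟨i, n, ⟨hi, rfl⟩, rfl⟩
      apply TD.Cl.of_mem
      rcases hi with hi | hi
      · exact Or.inl ⟨i, 0, ⟨hi, rfl⟩, rfl⟩
      · exact Or.inr ⟨i, 0, ⟨hi, rfl⟩, rfl⟩)
      (K.Lv_of_c hN (P := fun s => s ∈ X ∨ s ∈ perp M X) h2))
  have hA' : K.1.Lv (fun i n => i.1 ∈ X ∧ n = 0) A := hA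
  have hB' : K.1.Lv (fun i n => i.1 ∈ perp M X ∧ n = 0) B := hB
  have e1 := Md.D.les A _ _ _ (Md.D.rot' hE)
  have e2 : Md.D.hom A N = 0 := hA'.hom_left (by
    rintro i n ⟨hi, rfl⟩
    rw [Md.D.sh_zero]; exact h3 i hi)
  have e3 : Md.D.hom A (Md.D.sh (-1) B) = 0 :=
    Heart.M.hom_neg (hA'.mono fun _ _ h => h.2) (hB'.mono fun _ _ h => h.2) (by omega)
  rw [Md.D.eq_zero A (by omega)] at hE
  rwa [Md.D.eq_of_ext_zero _ _ hE]

theorem coh_perp (hM : Small M) (hc : Aff.Conn M X) (hi : Infinite (Tits.W M X)) (K : Md.GH)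
    {T : Md.D.Obj} {n : ℤ} (h : ∀ x : S × Irr, x.1 ∈ X → ∀ j : ℤ, j ≠ 1 →
      Md.D.hom (Md.D.sh n (K.1.S x)) (Md.D.sh j T) = 0) :
    K.1.Lv (fun i m => m = n ∨ i.1 ∈ perp M X) T := by
  refine coh_ind fun q A B C B' hA hE hC hV hB' e => ?_
  by_cases hq : q = n
  · exact (Heart.Lv.inter_V hC hV).mono fun _ _ h => Or.inl (by omega)
  have hN : K.1.M (Md.D.sh (-q) C) :=
    (Heart.Lv.inter_V hC hV).sh _ fun _ _ h => by omega
  have h1 := (supp_perp hM hc hi K hN fun x hx => ?_).sh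
    (Q := fun i m => m = n ∨ i.1 ∈ perp M X) q fun _ _ h => Or.inr h.1
  · simpa using h1
  have hS := Heart.M_iff.1 (Heart.M.simple K.1 x)
  rw [Md.D.s_sh, ← Md.D.hom_sh n, Md.D.sh_sh]
  have e1 := Md.D.les (Md.D.sh n (K.1.S x)) _ _ _
    ((Md.D.ext_sh (n + (-q + 1))).2 (Md.D.rot' e))
  have e2 := Md.D.les (Md.D.sh n (K.1.S x)) _ _ _
    ((Md.D.ext_sh (n + (-q + 1))).2 (Md.D.rot1 hE))
  have e3 := h x hx (n + (-q + 1)) (by omega)
  have e4 : Md.D.hom (Md.D.sh n (K.1.S x)) (Md.D.sh (n + (-q + 1)) (Md.D.sh (-1) B')) = 0 :=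
    Heart.hom_U_V (by omega) ((Heart.U_sh n).2 hS.1)
      ((Heart.V_sh _).2 ((Heart.V_sh _).2 hB'))
  have e5 : Md.D.hom (Md.D.sh n (K.1.S x)) (Md.D.sh (n + (-q + 1)) (Md.D.sh 1 A)) = 0 := by
    rw [Md.D.cy']
    exact Heart.hom_U_V (by omega) ((Heart.U_sh _).2 ((Heart.U_sh _).2 hA))
      ((Heart.V_sh _).2 ((Heart.V_sh n).2 hS.2))
  omega

theorem levelsX (hM : Small M) (hc : Aff.Conn M X) (H : Md.GH) {a : Art M}
    (ha : ∀ s ∈ X, ∃ k : ℕ, 0 < k ∧ Commute a (gen M s ^ k)) :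
    ∃ n : ℤ, ∀ x : S × Irr, x.1 ∈ X →
      (Model.act hM H a).1.Lv (fun i m => i.1 = x.1 ∧ m = n) (H.1.S x) := by
  have h0 : ∀ x : S × Irr, ∃ c : ℤ, x.1 ∈ X →
      (Model.act hM H a).1.Lv (fun i n => i.1 = x.1 ∧ n = c) (H.1.S x) := fun x => by
    by_cases hx : x.1 ∈ X
    · obtain ⟨k, hk, h⟩ := ha x.1 hx
      obtain ⟨c, h⟩ := pow_level hM H x hk h
      exact ⟨c, fun _ => h⟩
    · exact ⟨0, fun h => absurd h hx⟩
  choose c hcx using h0
  have hblk : ∀ s ∈ X, ∀ g, c (s, g) = c (s, (1, 1)) := fun s hs =>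
    irr_const (f := fun g => c (s, g)) (fun e g g' h => by
      have h1 := level_fus h (hcx (s, g) hs) (hcx (s, g') hs)
      have h2 := level_fus (show nF e g' g = 1 by rw [nF_symm]; exact h) (hcx (s, g') hs)
        (hcx (s, g) hs)
      omega)
  obtain ⟨⟨s₀, h₀⟩, hc⟩ := Aff.conn_iff.1 hc
  refine ⟨c (s₀, (1, 1)), fun x hx => ?_⟩
  have e := hc (fun s => c (s₀, (1, 1)) = c (s, (1, 1))) (fun s hs t ht h ih => by
    by_cases hst : s = t
    · rwa [← hst]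
    obtain ⟨g, g', hg⟩ := exists_nL (m := M s t) ((hM s t hst).resolve_left h)
    rw [ih, ← hblk s hs g, ← hblk t ht g']
    exact level_edge hst hg (hcx (s, g) hs) (hcx (t, g') ht)) s₀ h₀ rfl x.1 hx
  rw [e, ← hblk x.1 hx x.2]
  exact hcx x hx

theorem comm_par_perp {s : S} (hs : s ∈ X) {y : Art M} (hy : y ∈ par M (perp M X : Set S)) :
    Commute (gen M s) y :=
  comm_perp (T := Set.univ) (par_mono (T' := {t | t ∈ Set.univ ∧ M s t = 2})
    (fun _ ht => ⟨trivial, mem_perp.1 ht s hs⟩) hy)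

/-- Labels two to five. -/
theorem small_mem (hM : Small M) (hc : Aff.Conn M X) (hi : Infinite (Tits.W M X))
    {z : Art M} (hz : ∀ s ∈ X, ∃ k : ℕ, 0 < k ∧ Commute z (gen M s ^ k)) :
    z ∈ par M (perp M X : Set S) := by
  obtain ⟨Md⟩ := Pool.Agent.HM.modelStmt S (fun s t => M s t) M.symmetric
  let H : Md.GH := ⟨Md.H, Md.good_H⟩
  obtain ⟨n, hn⟩ := levelsX hM hc H hz
  obtain ⟨n', hn'⟩ := levelsX hM hc (Model.act hM H z) (a := z⁻¹) fun s hs => by
    obtain ⟨k, hk, h⟩ := hz s hs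
    exact ⟨k, hk, h.inv_left⟩
  rw [← Model.act_mul, mul_inv_cancel, Model.act_one] at hn'
  have e : n' = -n := by
    obtain ⟨s, hs⟩ := hc.1
    have h1 : H.1.Lv (fun _ m => m = n + n') (H.1.S (s, (0, 0))) :=
      Heart.Lv.ind (P := fun i m => i.1 = s ∧ m = n)
        (R := fun T => H.1.Lv (fun _ m => m = n + n') T) Heart.Lv.zero
        (fun i m h => (hn' i (h.1 ▸ hs)).sh m fun _ _ k => by rw [h.2, k.2])
        (fun _ _ _ hE hA hB => Heart.Lv.ext hA hB hE) (hn (s, (0, 0)) hs)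
    have h2 := Heart.M_iff.1 (Heart.M.simple H.1 (s, (0, 0)))
    by_contra c
    have h3 : H.1.Lv (fun _ _ => False) (H.1.S (s, (0, 0))) :=
      ((h1.inter_U h2.1).inter_V h2.2).mono fun _ _ h => by omega
    have := h3.hom_left (W := H.1.S (s, (0, 0))) fun _ _ h => h.elim
    rw [H.1.one] at this
    omega
  have h1 : ∀ x, (Model.act hM H z).1.Lv (fun i m => m = n ∨ i.1 ∈ perp M X) (H.1.S x) := by
    intro x
    by_cases hx : x.1 ∈ X
    · exact (hn x hx).mono fun _ _ h => Or.inl h.2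
    refine coh_perp hM hc hi _ fun y hy j hj => ?_
    refine ((hn' y hy).sh (Q := fun i m => i.1 ∈ X ∧ m = 0) n
      fun _ _ h => ⟨h.1 ▸ hy, by omega⟩).hom_left ?_
    rintro i m ⟨hi, rfl⟩
    exact H.1.hom_ne_level (fun c : i = x => hx (c ▸ hi)) (by omega)
  refine mem_par_of_levels (hM := hM) H hi h1 fun f hf s hs => ⟨(0, 0), ?_⟩
  obtain ⟨k, hk, h⟩ := hz s hs
  obtain ⟨c, h2⟩ := pow_level hM H (a := f) (s, (0, 0)) hk (by
    have := h.mul_left ((comm_par_perp hs hf).symm.pow_right k)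
    rwa [mul_inv_cancel_left] at this)
  have h3 := (((lv_coset hM H hf fun _ _ h => Or.inr h).2 (h1 (s, (0, 0)))).inter_U (a := c)
    (h2.mono fun _ _ h => h.2.ge)).inter_V (a := c) (h2.mono fun _ _ h => h.2.le)
  by_cases e' : c = n
  · exact e' ▸ h2
  have := Heart.Lv.hom_eq_zero (fun i p j q hp hq => Or.inr ⟨by omega, fun k =>
    not_mem_perp (M := M) hs (by
      have := hq.1.1.resolve_left (by omega)
      rwa [← k, hp.1] at this)⟩) h2 h3
  rw [H.1.one] at this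
  omega

end Pool.Agent.Lib.MP_6d85b4_al.Icc
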