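import Pool.Agent.Lib.MP_6d85b4_al.Icc.Rel5

set_option autoImplicit false
set_option linter.unusedSectionVars false

/-! The statements for sets of generators. -/

namespace Pool.Agent.Lib.MP_6d85b4_al.Icc

variable {S : Type} [Fintype S] [DecidableEq S] {M : CoxeterMatrix S}

theorem conn_of_induce {X : Finset S}
    (h : ((SimpleGraph.fromRel fun s t : S => M s t ≠ 2).induce (X : Set S)).Connected) :
    HT.Aff.Conn M X := by
  obtain ⟨b⟩ := h.nonempty
  refine ⟨⟨b.1, b.2⟩, fun T hT ⟨a, ha⟩ k => Finset.Subset.antisymm hT fun c hc => ?_⟩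
  have key : ∀ u v : (X : Set S), ((SimpleGraph.fromRel fun s t : S => M s t ≠ 2).induce
      (X : Set S)).Reachable u v → u.1 ∈ T → v.1 ∈ T := by
    rintro u v ⟨p⟩
    induction p with
    | nil => exact id
    | @cons u w v e _ ih =>
      refine fun hu => ih (by_contra fun n => ?_)
      have e1 := k _ hu _ w.2 n
      rcases (SimpleGraph.fromRel_adj (fun s t : S => M s t ≠ 2) u.1 w.1).1 e with ⟨-, e2 | e2⟩
      · exact e2 e1
      · exact e2 (M.symmetric _ _ ▸ e1)
  exact key ⟨a, hT ha⟩ ⟨c, hc⟩ (h.preconnected _ _) ha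

theorem coe_perp (X : Finset S) : (perp M X : Set S) = {t | ∀ s ∈ (X : Set S), M s t = 2} :=
  Set.ext fun _ => mem_perp

theorem par_conj_iff {X : Set S}
    (hc : ((SimpleGraph.fromRel fun s t : S => M s t ≠ 2).induce X).Connected)
    (hi : Infinite (Subgroup.closure (M.simple '' X)))
    (h : HT.Small M ∨ ∃ i ∈ X, ∃ j ∈ X, M i j = 0 ∨ 6 ≤ M i j) (z : Art M) :
    (∀ g ∈ par M X, ∀ s ∈ X, ∃ k : ℕ, 0 < k ∧ Commute z ((g * gen M s * g⁻¹) ^ k)) ↔
      z ∈ par M {t | ∀ s ∈ X, M s t = 2} := by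
  lift X to Finset S using X.toFinite
  rw [← coe_perp, ← zx_eq (conn_of_induce hc) hi h]
  rfl

theorem par_pow_iff {X : Set S}
    (hc : ((SimpleGraph.fromRel fun s t : S => M s t ≠ 2).induce X).Connected)
    (hi : Infinite (Subgroup.closure (M.simple '' X))) (h : HT.Small M) (z : Art M) :
    (∀ s ∈ X, ∃ k : ℕ, 0 < k ∧ Commute z (gen M s ^ k)) ↔
      z ∈ par M {t | ∀ s ∈ X, M s t = 2} := by
  lift X to Finset S using X.toFinite
  rw [← coe_perp]
  exact ⟨small_mem h (conn_of_induce hc) hi,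
    fun hz s hs => ⟨1, one_pos, (comm_par_perp hs hz).symm.pow_right 1⟩⟩

end Pool.Agent.Lib.MP_6d85b4_al.Icc
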